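import Mathlib

set_option autoImplicit false

namespace Pool.Agent.R65.OM

open Finset

/-- All pairs between the cell starting at `x` and the cell starting at `y` are `B`-pairs. -/
def Full (B : ℕ → ℕ → Prop) (L x y : ℕ) : Prop :=
  ∀ i, i < L → ∀ j, j < L → B (x + i) (y + j)

/-- The edge `{u, μ u}` is potentially violated. -/
def PV {n : ℕ} (B : ℕ → ℕ → Prop) (r L : ℕ) (f : Fin n → ℕ) (μ : Fin n → Fin n)
    (S : ℕ → ℕ → ℕ) (u : Fin n) : Prop :=
  ∃ p, p ≤ 2 * r ∧ ∃ q, q ≤ 2 * r ∧
    Full B L (S (f u) (2 * (u : ℕ) + p)) (S (f (μ u)) (2 * (μ u : ℕ) + q))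

theorem PV_symm {n : ℕ} {B : ℕ → ℕ → Prop} (hB : ∀ x y, B x y → B y x) {r L : ℕ}
    {f : Fin n → ℕ} {μ : Fin n → Fin n} (hμ : ∀ v, μ (μ v) = v)
    {S : ℕ → ℕ → ℕ} {u : Fin n} (h : PV B r L f μ S u) : PV B r L f μ S (μ u) := by
  obtain ⟨p, hp, q, hq, h⟩ := h
  refine ⟨q, hq, p, hp, ?_⟩
  rw [hμ]
  intro i hi j hj
  exact hB _ _ (h j hj i hi)

theorem embed {n k r L M N : ℕ} {B : ℕ → ℕ → Prop} (hB : ∀ x y, B x y → B y x)
    (hdeg : ∀ (y : ℕ) (s : Finset ℕ), (∀ x ∈ s, B x y) → s.card < n)
    (hL : 0 < L) (hrL : n ≤ r * L)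
    (f : Fin n → ℕ) (hf : Monotone f) (hfk : ∀ v, f v < k)
    (μ : Fin n → Fin n) (hμ : ∀ v, μ (μ v) = v) (hprop : ∀ v, f (μ v) ≠ f v)
    (S : ℕ → ℕ → ℕ) (hM : 2 * n + 2 * r ≤ M)
    (hS1 : ∀ t m m', m < m' → S t m + L ≤ S t m')
    (hS2 : ∀ t m t' m', t < t' → m ≤ M → S t m + L ≤ S t' m')
    (hS3 : ∀ t m, t < k → m ≤ M → S t m + L ≤ N)
    (hnear : ∀ u u' : Fin n, f u = f u' → (u : ℕ) < u' → (u' : ℕ) ≤ u + 2 * r →
      PV B r L f μ S u → PV B r L f μ S u' → False) :
    ∃ φ : Fin n → ℕ, StrictMono φ ∧ (∀ v, φ v < N) ∧ ∀ v, ¬ B (φ v) (φ (μ v)) := by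
  classical
  -- near in both orders
  have hnear' : ∀ u u' : Fin n, f u = f u' → u ≠ u' → (u : ℕ) ≤ u' + 2 * r →
      (u' : ℕ) ≤ u + 2 * r → PV B r L f μ S u → PV B r L f μ S u' → False := by
    intro u u' h1 h2 h3 h4 h5 h6
    rcases lt_trichotomy (u : ℕ) (u' : ℕ) with h | h | h
    · exact hnear u u' h1 h h4 h5 h6
    · exact h2 (Fin.ext h)
    · exact hnear u' u h1.symm h h3 h6 h5
  -- violating left endpoints
  let Viol : Fin n → Prop := fun i => i < μ i ∧
    Full B L (S (f i) (2 * (i : ℕ))) (S (f (μ i)) (2 * (μ i : ℕ)))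
  have hViolPV : ∀ i, Viol i → PV B r L f μ S i := by
    intro i hi
    exact ⟨0, Nat.zero_le _, 0, Nat.zero_le _, by simpa using hi.2⟩
  -- the shift
  have hshift : ∀ i : Fin n, ∃ s, 1 ≤ s ∧ s ≤ r ∧ ∃ j, j < L ∧
      ¬ B (S (f i) (2 * ((i : ℕ) + s)) + j) (S (f (μ i)) (2 * (μ i : ℕ))) := by
    intro i
    by_contra hcon
    push Not at hcon
    -- the union of the cells
    let U : Finset ℕ := (Finset.Icc 1 r ×ˢ Finset.range L).image
      (fun p => S (f i) (2 * ((i : ℕ) + p.1)) + p.2)
    have hcard : U.card = r * L := by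
      rw [Finset.card_image_of_injOn]
      · simp
      · rintro ⟨s, j⟩ hs ⟨s', j'⟩ hs' h
        simp only [Finset.coe_product, Finset.coe_Icc, Finset.coe_range, Set.mem_prod,
          Set.mem_Icc, Set.mem_Iio] at hs hs'
        simp only at h
        rcases lt_trichotomy s s' with h1 | h1 | h1
        · exfalso
          have := hS1 (f i) (2 * ((i : ℕ) + s)) (2 * ((i : ℕ) + s')) (by omega)
          omega
        · subst h1
          simp only [Prod.mk.injEq, true_and]
          omega
        · exfalso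
          have := hS1 (f i) (2 * ((i : ℕ) + s')) (2 * ((i : ℕ) + s)) (by omega)
          omega
    have := hdeg (S (f (μ i)) (2 * (μ i : ℕ))) U (by
      intro x hx
      simp only [U, Finset.mem_image, Finset.mem_product, Finset.mem_Icc, Finset.mem_range,
        Prod.exists] at hx
      obtain ⟨s, j, ⟨⟨h1, h2⟩, h3⟩, rfl⟩ := hx
      exact hcon s h1 h2 j h3)
    omega
  choose sh hsh1 hsh2 xo hxo hnB using hshift
  -- block membership
  let Blk : Fin n → Fin n → Prop := fun i v => Viol i ∧ f i = f v ∧ i ≤ v ∧ (v : ℕ) < i + 2 * sh i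
  have hBlkuniq : ∀ i i' v, Blk i v → Blk i' v → i = i' := by
    intro i i' v h h'
    by_contra hne
    obtain ⟨h1, h2, h3, h4⟩ := h
    obtain ⟨h1', h2', h3', h4'⟩ := h'
    have e1 : (i : ℕ) ≤ v := h3
    have e2 : (i' : ℕ) ≤ v := h3'
    have e3 := hsh2 i
    have e4 := hsh2 i'
    exact hnear' i i' (h2.trans h2'.symm) hne (by omega) (by omega) (hViolPV i h1) (hViolPV i' h1')
  have hidx : ∀ v : Fin n, ∃ m : ℕ, (∀ i, Blk i v → m = 2 * ((i : ℕ) + sh i) + ((v : ℕ) - i)) ∧
      ((∀ i, ¬ Blk i v) → m = 2 * (v : ℕ)) := by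
    intro v
    by_cases h : ∃ i, Blk i v
    · obtain ⟨i, hi⟩ := h
      refine ⟨2 * ((i : ℕ) + sh i) + ((v : ℕ) - i), ?_, fun h' => absurd hi (h' i)⟩
      intro i' hi'
      rw [hBlkuniq i' i v hi' hi]
    · push Not at h
      exact ⟨2 * (v : ℕ), fun i hi => absurd hi (h i), fun _ => rfl⟩
  choose m hm1 hm2 using hidx
  have hmrange : ∀ v, ∃ p, p ≤ 2 * r ∧ m v = 2 * (v : ℕ) + p := by
    intro v
    by_cases h : ∃ i, Blk i v
    · obtain ⟨i, hi⟩ := h
      have e := hm1 v i hi
      obtain ⟨h1, h2, h3, h4⟩ := hi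
      have e1 : (i : ℕ) ≤ v := h3
      have e3 := hsh2 i
      exact ⟨m v - 2 * v, by omega, by omega⟩
    · push Not at h
      exact ⟨0, Nat.zero_le _, by rw [hm2 v h]; rfl⟩
  have hmono : ∀ u v : Fin n, u < v → f u = f v → m u < m v := by
    intro u v huv hfuv
    have huv' : (u : ℕ) < v := huv
    by_cases hu : ∃ i, Blk i u
    · obtain ⟨i, hi⟩ := hu
      have ei := hm1 u i hi
      by_cases hv : ∃ i', Blk i' v
      · obtain ⟨i', hi'⟩ := hv
        have ei' := hm1 v i' hi'
        by_cases hii : i = i'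
        · subst hii
          obtain ⟨h1, h2, h3, h4⟩ := hi
          have e1 : (i : ℕ) ≤ u := h3
          omega
        · obtain ⟨h1, h2, h3, h4⟩ := hi
          obtain ⟨h1', h2', h3', h4'⟩ := hi'
          have e1 : (i : ℕ) ≤ u := h3
          have e1' : (i' : ℕ) ≤ v := h3'
          have e3 := hsh2 i
          have e4 := hsh2 i'
          have hff : f i = f i' := h2.trans (hfuv.trans h2'.symm)
          have hfar : ¬ ((i : ℕ) ≤ i' + 2 * r ∧ (i' : ℕ) ≤ i + 2 * r) := fun hh =>
            hnear' i i' hff hii hh.1 hh.2 (hViolPV i h1) (hViolPV i' h1')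
          omega
      · push Not at hv
        have ev := hm2 v hv
        have hnv := hv i
        obtain ⟨h1, h2, h3, h4⟩ := hi
        have e1 : (i : ℕ) ≤ u := h3
        have : ¬ ((v : ℕ) < i + 2 * sh i) := fun hh =>
          hnv ⟨h1, h2.trans hfuv, le_of_lt (lt_of_le_of_lt h3 huv), hh⟩
        omega
    · push Not at hu
      have eu := hm2 u hu
      by_cases hv : ∃ i', Blk i' v
      · obtain ⟨i', hi'⟩ := hv
        have ei' := hm1 v i' hi'
        have hnu := hu i'
        obtain ⟨h1', h2', h3', h4'⟩ := hi'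
        have e1' : (i' : ℕ) ≤ v := h3'
        have : ¬ ((i' : ℕ) ≤ u) := fun hh =>
          hnu ⟨h1', h2'.trans hfuv.symm, hh, by omega⟩
        omega
      · push Not at hv
        rw [eu, hm2 v hv]
        omega
  -- non-full cells for every edge
  have hpair : ∀ u : Fin n, u < μ u → ∃ x y, x < L ∧ y < L ∧
      ¬ B (S (f u) (m u) + x) (S (f (μ u)) (m (μ u)) + y) := by
    intro u hu
    have hμViol : ¬ Viol (μ u) := by
      intro h
      have := h.1
      rw [hμ] at this
      exact absurd this (not_lt.2 hu.le)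
    -- the case where some endpoint is displaced by another violating vertex
    have key : (∃ i v, (v = u ∨ v = μ u) ∧ Blk i v ∧ i ≠ v) → ∃ x y, x < L ∧ y < L ∧
        ¬ B (S (f u) (m u) + x) (S (f (μ u)) (m (μ u)) + y) := by
      rintro ⟨i, v, hv, hi, hiv⟩
      have hnPV : ¬ PV B r L f μ S u := by
        intro hPV
        have hPVv : PV B r L f μ S v := by
          rcases hv with rfl | rfl
          · exact hPV
          · exact PV_symm hB hμ hPV
        obtain ⟨h1, h2, h3, h4⟩ := hi
        have e1 : (i : ℕ) ≤ v := h3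
        have e3 := hsh2 i
        exact hnear' i v h2 hiv (by omega) (by omega) (hViolPV i h1) hPVv
      obtain ⟨p, hp, ep⟩ := hmrange u
      obtain ⟨q, hq, eq⟩ := hmrange (μ u)
      by_contra hcon
      push Not at hcon
      apply hnPV
      refine ⟨p, hp, q, hq, ?_⟩
      intro i' hi' j' hj'
      rw [← ep, ← eq]
      exact hcon i' j' hi' hj'
    by_cases hk : ∃ i v, (v = u ∨ v = μ u) ∧ Blk i v ∧ i ≠ v
    · exact key hk
    · push Not at hk
      by_cases hVu : Viol u
      · -- u violates
        have hblk : Blk u u := ⟨hVu, rfl, le_rfl, by have := hsh1 u; omega⟩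
        have e1 := hm1 u u hblk
        have e2 : m (μ u) = 2 * (μ u : ℕ) := by
          apply hm2
          intro i hi
          have := hk i (μ u) (Or.inr rfl) hi
          subst this
          exact hμViol hi.1
        refine ⟨xo u, 0, hxo u, hL, ?_⟩
        rw [e1, e2]
        simpa using hnB u
      · have e1 : m u = 2 * (u : ℕ) := by
          apply hm2
          intro i hi
          have := hk i u (Or.inl rfl) hi
          subst this
          exact hVu hi.1
        have e2 : m (μ u) = 2 * (μ u : ℕ) := by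
          apply hm2
          intro i hi
          have := hk i (μ u) (Or.inr rfl) hi
          subst this
          exact hμViol hi.1
        by_contra hcon
        push Not at hcon
        apply hVu
        refine ⟨hu, ?_⟩
        intro i hi j hj
        rw [← e1, ← e2]
        exact hcon i j hi hj
  have hne : ∀ v, μ v ≠ v := fun v h => hprop v (by rw [h])
  choose X Y hX hY hXY using hpair
  let off : Fin n → ℕ := fun v => if h : v < μ v then X v h else
    Y (μ v) (by rw [hμ]; exact lt_of_le_of_ne (not_lt.1 h) (hne v))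
  have hoff : ∀ v, off v < L := by
    intro v
    simp only [off]
    split_ifs with h
    · exact hX v h
    · exact hY _ _
  refine ⟨fun v => S (f v) (m v) + off v, ?_, ?_, ?_⟩
  · intro u v huv
    have h1 := hoff u
    have h2 : f u ≤ f v := hf huv.le
    rcases eq_or_lt_of_le h2 with h3 | h3
    · have h4 := hmono u v huv h3
      have h5 := hS1 (f u) (m u) (m v) h4
      simp only
      rw [← h3]
      omega
    · obtain ⟨p, hp, ep⟩ := hmrange u
      have h5 := hS2 (f u) (m u) (f v) (m v) h3 (by have := u.2; omega)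
      simp only
      omega
  · intro v
    have h1 := hoff v
    obtain ⟨p, hp, ep⟩ := hmrange v
    have h5 := hS3 (f v) (m v) (hfk v) (by have := v.2; omega)
    simp only
    omega
  · intro v
    rcases lt_or_gt_of_ne (hne v) with h | h
    · -- μ v < v
      have h' : ¬ v < μ v := not_lt.2 h.le
      have h'' : μ v < μ (μ v) := by rw [hμ]; exact h
      have e1 : off v = Y (μ v) h'' := by
        simp only [off, dif_neg h']
      have e2 : off (μ v) = X (μ v) h'' := by
        simp only [off, dif_pos h'']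
      intro hb
      have := hXY (μ v) h''
      apply this
      apply hB
      simp only [e1, e2] at hb
      have e3 : μ (μ v) = v := hμ v
      simp only [e3]
      exact hb
    · have e1 : off v = X v h := by
        simp only [off, dif_pos h]
      have h' : ¬ μ v < μ (μ v) := by rw [hμ]; exact not_lt.2 h.le
      have e2 : off (μ v) = Y v h := by
        simp only [off, dif_neg h']
        congr 1
        exact hμ v
      simp only [e1, e2]
      exact hXY v h

end Pool.Agent.R65.OM
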