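import Mathlib
import Pool.Agent.R65.OM.Embed

set_option autoImplicit false

namespace Pool.Agent.R65.OM

open Finset

theorem fiber_count {k : ℕ} {X : Type} [Fintype X] [DecidableEq X] (b : Fin k)
    (E E2 : (Fin k → X) → Prop) (q : ℕ)
    [DecidablePred E] [DecidablePred E2]
    (hE : ∀ ω z, E (Function.update ω b z) → E2 ω)
    (hq : ∀ ω, (univ.filter (fun z => E (Function.update ω b z))).card ≤ q) :
    (univ.filter E).card * Fintype.card X ≤ q * (univ.filter E2).card := by
  classical
  have h1 : (univ.filter E).card * Fintype.card X =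
      ((univ : Finset ((Fin k → X) × X)).filter
        (fun p => E (Function.update p.1 b p.2))).card := by
    have : (univ.filter E).card * Fintype.card X = ((univ.filter E) ×ˢ (univ : Finset X)).card := by
      rw [Finset.card_product, Finset.card_univ]
    rw [this]
    refine Finset.card_nbij' (fun p => (Function.update p.1 b p.2, p.1 b))
      (fun p => (Function.update p.1 b p.2, p.1 b)) ?_ ?_ ?_ ?_
    · rintro ⟨ω, z⟩ h
      simp only [coe_product, coe_filter, mem_univ, true_and, coe_univ, Set.mem_prod,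
        Set.mem_ofPred_eq, Set.mem_univ, and_true] at h
      simpa using h
    · rintro ⟨ω, z⟩ h
      simpa using h
    · rintro ⟨ω, z⟩ h
      simp
    · rintro ⟨ω, z⟩ h
      simp
  have h2 : ((univ : Finset ((Fin k → X) × X)).filter
        (fun p => E (Function.update p.1 b p.2))).card =
      ∑ ω : Fin k → X, (univ.filter (fun z => E (Function.update ω b z))).card := by
    rw [Finset.card_filter, ← Finset.univ_product_univ, Finset.sum_product]
    refine Finset.sum_congr rfl fun ω _ => ?_
    rw [Finset.card_filter]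
  rw [h1, h2]
  calc ∑ ω : Fin k → X, (univ.filter (fun z => E (Function.update ω b z))).card
      ≤ ∑ ω : Fin k → X, (if E2 ω then q else 0) := by
        refine Finset.sum_le_sum fun ω _ => ?_
        split_ifs with h
        · exact hq ω
        · rw [Nat.le_zero, Finset.card_eq_zero, Finset.filter_eq_empty_iff]
          intro z _ hz
          exact h (hE ω z hz)
    _ = q * (univ.filter E2).card := by
        rw [← Finset.sum_filter, Finset.sum_const, smul_eq_mul, mul_comm]

/-- start of the `m`-th cell of class `t` -/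
def St {k P G : ℕ} (Λ L g : ℕ) (ω : Fin k → Fin P × Fin G) (t m : ℕ) : ℕ :=
  t * Λ + (if h : t < k then ((ω ⟨t, h⟩).1 : ℕ) else 0) +
    (2 * L + g * (if h : t < k then ((ω ⟨t, h⟩).2 : ℕ) else 0)) * (m / 2) + (m % 2) * L

theorem St_update_ne {k P G : ℕ} (Λ L g : ℕ) (ω : Fin k → Fin P × Fin G) (b : Fin k)
    (z : Fin P × Fin G) (t m : ℕ) (h : t ≠ b) :
    St Λ L g (Function.update ω b z) t m = St Λ L g ω t m := by
  unfold St
  have : ∀ h' : t < k, Function.update ω b z ⟨t, h'⟩ = ω ⟨t, h'⟩ := by
    intro h'
    rw [Function.update_of_ne]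
    intro h2
    apply h
    rw [← h2]
  by_cases h' : t < k
  · simp only [h', dif_pos, this h']
  · simp only [h', dif_neg, not_false_iff]

theorem St_update_self {k P G : ℕ} (Λ L g : ℕ) (ω : Fin k → Fin P × Fin G) (b : Fin k)
    (z : Fin P × Fin G) (t m : ℕ) (h : t = b) :
    St Λ L g (Function.update ω b z) t m =
      t * Λ + (z.1 : ℕ) + (2 * L + g * (z.2 : ℕ)) * (m / 2) + (m % 2) * L := by
  subst h
  unfold St
  simp

section fibers

variable {P G : ℕ} {B : ℕ → ℕ → Prop} (hB : ∀ x y, B x y → B y x) {n L : ℕ}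
  (hdeg : ∀ (y : ℕ) (s : Finset ℕ), (∀ x ∈ s, B x y) → s.card < n) (hL : 0 < L)

include hB hdeg hL in
theorem fib1 (x0 A g v e : ℕ) (F : Finset (Fin P × Fin G))
    (hF : ∀ z ∈ F, Full B L x0 (A + (z.1 : ℕ) + (2 * L + g * (z.2 : ℕ)) * v + e)) :
    F.card ≤ n * G := by
  classical
  have h1 : F.card ≤ n * (F.image (fun z => z.2)).card := by
    apply Finset.card_le_mul_card_image
    intro γ hγ
    have h2 : ((F.filter (fun z => z.2 = γ)).image
        (fun z => A + (z.1 : ℕ) + (2 * L + g * (z.2 : ℕ)) * v + e)).card < n := by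
      apply hdeg x0
      intro y hy
      simp only [Finset.mem_image, Finset.mem_filter] at hy
      obtain ⟨z, ⟨hz, -⟩, rfl⟩ := hy
      have := hF z hz 0 hL 0 hL
      simp only [Nat.add_zero] at this
      exact hB _ _ this
    rw [Finset.card_image_of_injOn] at h2
    · exact h2.le
    · rintro ⟨a, c⟩ h ⟨a', c'⟩ h' heq
      simp only [Finset.coe_filter, Set.mem_ofPred_eq] at h h'
      obtain ⟨-, rfl⟩ := h
      obtain ⟨-, rfl⟩ := h'
      simp only at heq
      have : (a : ℕ) = a' := by omega
      rw [Fin.ext this]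
  calc F.card ≤ n * (F.image (fun z => z.2)).card := h1
    _ ≤ n * G := by
      apply Nat.mul_le_mul_left
      calc (F.image (fun z => z.2)).card ≤ (univ : Finset (Fin G)).card :=
            Finset.card_le_card (Finset.subset_univ _)
        _ = G := by simp

include hB hdeg hL in
theorem fib2 {r g Z : ℕ} (hrL : n ≤ r * L) (hgZ : L ≤ g * Z) (x0 x1 A v v' e e' : ℕ)
    (hvv : v + Z ≤ v' ∨ v' + Z ≤ v) (F : Finset (Fin P × Fin G))
    (hF : ∀ z ∈ F, Full B L x0 (A + (z.1 : ℕ) + (2 * L + g * (z.2 : ℕ)) * v + e))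
    (hF' : ∀ z ∈ F, Full B L x1 (A + (z.1 : ℕ) + (2 * L + g * (z.2 : ℕ)) * v' + e')) :
    F.card ≤ r * n := by
  classical
  set Y : Fin P × Fin G → ℕ := fun z => A + (z.1 : ℕ) + (2 * L + g * (z.2 : ℕ)) * v + e with hY
  set Y' : Fin P × Fin G → ℕ := fun z => A + (z.1 : ℕ) + (2 * L + g * (z.2 : ℕ)) * v' + e' with hY'
  have h1 : F.card ≤ r * (F.image Y).card := by
    apply Finset.card_le_mul_card_image
    intro y hy
    -- the cells are disjoint
    have hinj : Set.InjOn (fun p : (Fin P × Fin G) × ℕ => Y' p.1 + p.2)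
        (((F.filter (fun z => Y z = y)) ×ˢ Finset.range L : Finset _) : Set _) := by
      rintro ⟨⟨a, c⟩, j⟩ h ⟨⟨a', c'⟩, j'⟩ h' heq
      simp only [Finset.coe_product, Finset.coe_filter, Set.mem_prod, Set.mem_ofPred_eq,
        Finset.coe_range, Set.mem_Iio] at h h'
      obtain ⟨⟨-, h2⟩, h3⟩ := h
      obtain ⟨⟨-, h2'⟩, h3'⟩ := h'
      simp only [hY, hY'] at h2 h2' heq
      have hc : (c : ℕ) = c' := by
        by_contra hne
        have e1 : ((g : ℤ) * ((c : ℕ) : ℤ) - g * ((c' : ℕ) : ℤ)) * ((v' : ℤ) - v) = (j' : ℤ) - j := by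
          have e2 : ((A : ℤ) + ((a : ℕ) : ℤ) + (2 * L + g * ((c : ℕ) : ℤ)) * v + e) =
              ((A : ℤ) + ((a' : ℕ) : ℤ) + (2 * L + g * ((c' : ℕ) : ℤ)) * v + e) := by
            have := h2.trans h2'.symm
            exact_mod_cast this
          have e3 : ((A : ℤ) + ((a : ℕ) : ℤ) + (2 * L + g * ((c : ℕ) : ℤ)) * v' + e' + j) =
              ((A : ℤ) + ((a' : ℕ) : ℤ) + (2 * L + g * ((c' : ℕ) : ℤ)) * v' + e' + j') := by
            exact_mod_cast heq
          linarith
        have e4 : (L : ℤ) ≤ |((g : ℤ) * ((c : ℕ) : ℤ) - g * ((c' : ℕ) : ℤ)) * ((v' : ℤ) - v)| := by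
          rw [← mul_sub, abs_mul, abs_mul]
          have e5 : (1 : ℤ) ≤ |((c : ℕ) : ℤ) - ((c' : ℕ) : ℤ)| := by
            apply Int.one_le_abs
            intro h
            apply hne
            omega
          have e6 : (Z : ℤ) ≤ |(v' : ℤ) - v| := by
            rcases hvv with h | h
            · rw [abs_of_nonneg (by omega)]
              omega
            · rw [abs_of_nonpos (by omega)]
              omega
          have e7 : (L : ℤ) ≤ g * Z := by exact_mod_cast hgZ
          rw [Nat.abs_cast]
          calc (L : ℤ) ≤ g * Z := e7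
            _ = (g * 1) * Z := by ring
            _ ≤ (g * |((c : ℕ) : ℤ) - ((c' : ℕ) : ℤ)|) * |(v' : ℤ) - v| := by
                apply mul_le_mul
                · exact mul_le_mul_of_nonneg_left e5 (by positivity)
                · exact e6
                · positivity
                · positivity
        rw [e1] at e4
        have e8 : |(j' : ℤ) - j| < L := by
          rw [abs_lt]
          constructor <;> omega
        omega
      have hc' : c = c' := Fin.ext hc
      subst hc'
      have ha : (a : ℕ) = a' := by omega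
      have ha' : a = a' := Fin.ext ha
      subst ha'
      have hj : j = j' := by omega
      rw [hj]
    have h3 : (((F.filter (fun z => Y z = y)) ×ˢ Finset.range L).image
        (fun p : (Fin P × Fin G) × ℕ => Y' p.1 + p.2)).card < n := by
      apply hdeg x1
      intro w hw
      simp only [Finset.mem_image, Finset.mem_product, Finset.mem_filter, Finset.mem_range] at hw
      obtain ⟨⟨z, j⟩, ⟨⟨hz, -⟩, hj⟩, rfl⟩ := hw
      have := hF' z hz 0 hL j hj
      simp only [Nat.add_zero] at this
      exact hB _ _ this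
    rw [Finset.card_image_of_injOn hinj, Finset.card_product, Finset.card_range] at h3
    have h4 : (F.filter (fun z => Y z = y)).card * L < r * L := lt_of_lt_of_le h3 hrL
    exact (Nat.lt_of_mul_lt_mul_right h4).le
  calc F.card ≤ r * (F.image Y).card := h1
    _ ≤ r * n := by
      apply Nat.mul_le_mul_left
      apply le_of_lt
      apply hdeg x0
      intro y hy
      simp only [Finset.mem_image] at hy
      obtain ⟨z, hz, rfl⟩ := hy
      have := hF z hz 0 hL 0 hL
      simp only [Nat.add_zero] at this
      exact hB _ _ this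

end fibers

end Pool.Agent.R65.OM
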