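import Mathlib
import Pool.Agent.R65.OM.Param

set_option autoImplicit false

namespace Pool.Agent.R65.OM

open Finset

section

variable {n k G L g r Z Λ : ℕ} {B : ℕ → ℕ → Prop} (hB : ∀ x y, B x y → B y x)
  (hdeg : ∀ (y : ℕ) (s : Finset ℕ), (∀ x ∈ s, B x y) → s.card < n)
  (hn : 0 < n) (hL : 0 < L) (hG : 0 < G) (hr : 0 < r) (hrL : n ≤ r * L) (hgZ : L ≤ g * Z)
  (hGL : G ≤ L)
  (f : Fin n → ℕ) (hfk : ∀ v, f v < k) (μ : Fin n → Fin n)
  (hprop : ∀ v, f (μ v) ≠ f v)

/-- the event that a given pair of potential cells is full -/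
def Ev {n k P G : ℕ} (B : ℕ → ℕ → Prop) (Λ L g : ℕ) (f : Fin n → ℕ) (μ : Fin n → Fin n)
    (u : Fin n) (p q : ℕ) (ω : Fin k → Fin P × Fin G) : Prop :=
  Full B L (St Λ L g ω (f u) (2 * (u : ℕ) + p)) (St Λ L g ω (f (μ u)) (2 * (μ u : ℕ) + q))

include hB hdeg hn hL hG hfk hprop in
open Classical in
theorem bound1 (u : Fin n) (p q : ℕ) (E E2 : (Fin k → Fin (n * L) × Fin G) → Prop)
    (hE : ∀ ω, E ω → Ev B Λ L g f μ u p q ω)
    (hE2 : ∀ ω z, E (Function.update ω ⟨f (μ u), hfk _⟩ z) → E2 ω) :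
    (univ.filter E).card * L ≤ (univ.filter E2).card := by
  have h := fiber_count (X := Fin (n * L) × Fin G) ⟨f (μ u), hfk _⟩ E E2 (n * G) hE2 (by
    intro ω
    apply fib1 hB hdeg hL (St Λ L g ω (f u) (2 * (u : ℕ) + p)) (f (μ u) * Λ) g
      ((2 * (μ u : ℕ) + q) / 2) (((2 * (μ u : ℕ) + q) % 2) * L)
    intro z hz
    simp only [Finset.mem_filter, Finset.mem_univ, true_and] at hz
    have h1 := hE _ hz
    unfold Ev at h1
    rw [St_update_ne Λ L g ω _ z _ _ (hprop u).symm, St_update_self Λ L g ω _ z _ _ rfl] at h1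
    exact h1)
  simp only [Fintype.card_prod, Fintype.card_fin] at h
  have h2 : (n * G) * ((univ.filter E).card * L) ≤ (n * G) * (univ.filter E2).card := by
    calc (n * G) * ((univ.filter E).card * L) = (univ.filter E).card * (n * L * G) := by ring
      _ ≤ n * G * (univ.filter E2).card := h
  exact Nat.le_of_mul_le_mul_left h2 (Nat.mul_pos hn hG)

include hB hdeg hn hL hG hfk hprop hrL hgZ in
open Classical in
theorem bound3 (u u' : Fin n) (p q p' q' : ℕ) (hff : f u = f u') (hmm : f (μ u) = f (μ u'))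
    (hvv : (2 * (μ u : ℕ) + q) / 2 + Z ≤ (2 * (μ u' : ℕ) + q') / 2 ∨
      (2 * (μ u' : ℕ) + q') / 2 + Z ≤ (2 * (μ u : ℕ) + q) / 2) :
    (univ.filter (fun ω : Fin k → Fin (n * L) × Fin G => Ev B Λ L g f μ u p q ω ∧
      Ev B Λ L g f μ u' p' q' ω)).card * (L * G) ≤
      r * Fintype.card (Fin k → Fin (n * L) × Fin G) := by
  have h := fiber_count (X := Fin (n * L) × Fin G) ⟨f (μ u), hfk _⟩
    (fun ω => Ev B Λ L g f μ u p q ω ∧ Ev B Λ L g f μ u' p' q' ω) (fun _ => True) (r * n)
    (fun _ _ _ => trivial) (by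
    intro ω
    apply fib2 hB hdeg hL hrL hgZ (St Λ L g ω (f u) (2 * (u : ℕ) + p))
      (St Λ L g ω (f u') (2 * (u' : ℕ) + p')) (f (μ u) * Λ)
      ((2 * (μ u : ℕ) + q) / 2) ((2 * (μ u' : ℕ) + q') / 2) (((2 * (μ u : ℕ) + q) % 2) * L)
      (((2 * (μ u' : ℕ) + q') % 2) * L) hvv
    · intro z hz
      simp only [Finset.mem_filter, Finset.mem_univ, true_and] at hz
      have h1 := hz.1
      unfold Ev at h1
      rw [St_update_ne Λ L g ω _ z _ _ (hprop u).symm, St_update_self Λ L g ω _ z _ _ rfl] at h1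
      exact h1
    · intro z hz
      simp only [Finset.mem_filter, Finset.mem_univ, true_and] at hz
      have h1 := hz.2
      unfold Ev at h1
      rw [St_update_ne Λ L g ω _ z _ _ (by rw [← hff]; exact (hprop u).symm),
        St_update_self Λ L g ω _ z _ _ hmm.symm, ← hmm] at h1
      exact h1)
  simp only [Fintype.card_prod, Fintype.card_fin, Finset.filter_true, Finset.card_univ] at h
  have h2 : n * ((univ.filter (fun ω : Fin k → Fin (n * L) × Fin G => Ev B Λ L g f μ u p q ω ∧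
      Ev B Λ L g f μ u' p' q' ω)).card * (L * G)) ≤
      n * (r * Fintype.card (Fin k → Fin (n * L) × Fin G)) := by
    calc n * ((univ.filter (fun ω : Fin k → Fin (n * L) × Fin G => Ev B Λ L g f μ u p q ω ∧
      Ev B Λ L g f μ u' p' q' ω)).card * (L * G)) = (univ.filter (fun ω :
      Fin k → Fin (n * L) × Fin G => Ev B Λ L g f μ u p q ω ∧
      Ev B Λ L g f μ u' p' q' ω)).card * (n * L * G) := by ring
      _ ≤ r * n * Fintype.card (Fin k → Fin (n * L) × Fin G) := h
      _ = _ := by ring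
  exact Nat.le_of_mul_le_mul_left h2 hn

include hB hdeg hn hL hG hfk hprop hrL hgZ hGL hr in
open Classical in
/-- combined bound for the pairs which are not close -/
theorem bound_far (u u' : Fin n) (p q p' q' : ℕ) (hff : f u = f u')
    (hq : q ≤ 2 * r) (hq' : q' ≤ 2 * r)
    (hclose : ¬ (f (μ u) = f (μ u') ∧ (μ u : ℕ) ≤ μ u' + (Z + r) ∧ (μ u' : ℕ) ≤ μ u + (Z + r))) :
    (univ.filter (fun ω : Fin k → Fin (n * L) × Fin G => Ev B Λ L g f μ u p q ω ∧
      Ev B Λ L g f μ u' p' q' ω)).card * (L * G) ≤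
      r * Fintype.card (Fin k → Fin (n * L) × Fin G) := by
  by_cases hmm : f (μ u) = f (μ u')
  · apply bound3 hB hdeg hn hL hG hrL hgZ f hfk μ hprop u u' p q p' q' hff hmm
    have : ¬ ((μ u : ℕ) ≤ μ u' + (Z + r) ∧ (μ u' : ℕ) ≤ μ u + (Z + r)) := fun h => hclose ⟨hmm, h⟩
    omega
  · have h1 := bound1 hB hdeg hn hL hG f hfk μ hprop (Λ := Λ) (g := g) u p q
      (fun ω => Ev B Λ L g f μ u p q ω ∧ Ev B Λ L g f μ u' p' q' ω)
      (fun ω => Ev B Λ L g f μ u' p' q' ω) (fun ω h => h.1) (by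
        rintro ω z ⟨-, h⟩
        unfold Ev at h ⊢
        rw [St_update_ne Λ L g ω _ z _ _ (by rw [← hff]; exact (hprop u).symm),
          St_update_ne Λ L g ω _ z _ _ (Ne.symm hmm)] at h
        exact h)
    have h2 := bound1 hB hdeg hn hL hG f hfk μ hprop (Λ := Λ) (g := g) u' p' q'
      (fun ω => Ev B Λ L g f μ u' p' q' ω)
      (fun _ => True) (fun ω h => h) (fun _ _ _ => trivial)
    simp only [Finset.filter_true, Finset.card_univ] at h2
    calc _ ≤ (univ.filter (fun ω : Fin k → Fin (n * L) × Fin G => Ev B Λ L g f μ u p q ω ∧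
      Ev B Λ L g f μ u' p' q' ω)).card * (L * L) :=
          Nat.mul_le_mul_left _ (Nat.mul_le_mul_left _ hGL)
      _ = ((univ.filter (fun ω : Fin k → Fin (n * L) × Fin G => Ev B Λ L g f μ u p q ω ∧
      Ev B Λ L g f μ u' p' q' ω)).card * L) * L := by ring
      _ ≤ (univ.filter (fun ω => Ev B Λ L g f μ u' p' q' ω)).card * L := by
          apply Nat.mul_le_mul_right
          convert h1
      _ ≤ Fintype.card (Fin k → Fin (n * L) × Fin G) := h2
      _ ≤ r * Fintype.card (Fin k → Fin (n * L) × Fin G) := Nat.le_mul_of_pos_left _ hr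

/-- near pairs whose partners are close -/
def closePairs {n : ℕ} (r Z : ℕ) (f : Fin n → ℕ) (μ : Fin n → Fin n) :
    Finset (Fin n × Fin n) :=
  univ.filter (fun p => f p.1 = f p.2 ∧ (p.1 : ℕ) < p.2 ∧ (p.2 : ℕ) ≤ p.1 + 2 * r ∧
    f (μ p.1) = f (μ p.2) ∧ (μ p.1 : ℕ) ≤ μ p.2 + (Z + r) ∧ (μ p.2 : ℕ) ≤ μ p.1 + (Z + r))

theorem near_card {n : ℕ} (r : ℕ) (Q : Fin n × Fin n → Prop) [DecidablePred Q]
    (hQ : ∀ p, Q p → (p.1 : ℕ) < p.2 ∧ (p.2 : ℕ) ≤ p.1 + 2 * r) :
    (univ.filter Q).card ≤ 2 * r * n := by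
  classical
  have h : (univ.filter Q).card ≤ 2 * r * ((univ.filter Q).image (fun p => p.1)).card := by
    apply Finset.card_le_mul_card_image
    intro a _
    have : (((univ.filter Q).filter (fun p => p.1 = a)).image (fun p => (p.2 : ℕ))) ⊆
        Finset.Ioc (a : ℕ) (a + 2 * r) := by
      intro x hx
      simp only [Finset.mem_image, Finset.mem_filter, Finset.mem_univ, true_and] at hx
      obtain ⟨p, ⟨h1, rfl⟩, rfl⟩ := hx
      have := hQ p h1
      simp only [Finset.mem_Ioc]
      omega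
    have h2 := Finset.card_le_card this
    rw [Finset.card_image_of_injOn] at h2
    · simpa using h2
    · rintro ⟨x, y⟩ hx ⟨x', y'⟩ hx' heq
      simp only [Finset.coe_filter, Finset.mem_filter, Finset.mem_univ, true_and,
        Set.mem_ofPred_eq] at hx hx' heq
      obtain ⟨-, rfl⟩ := hx
      obtain ⟨-, rfl⟩ := hx'
      rw [Fin.ext heq]
  calc (univ.filter Q).card ≤ _ := h
    _ ≤ 2 * r * (univ : Finset (Fin n)).card :=
      Nat.mul_le_mul_left _ (Finset.card_le_card (Finset.subset_univ _))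
    _ = 2 * r * n := by simp

include hB hdeg hn hL hG hfk hprop hrL hgZ hGL hr in
open Classical in
theorem exists_param
    (hmain : (2 * r + 1) ^ 4 * ((closePairs r Z f μ).card * G + 2 * r * n * r) < L * G) :
    ∃ ω : Fin k → Fin (n * L) × Fin G, ∀ u u' : Fin n, f u = f u' → (u : ℕ) < u' →
      (u' : ℕ) ≤ u + 2 * r → PV B r L f μ (St Λ L g ω) u →
      PV B r L f μ (St Λ L g ω) u' → False := by
  by_contra hcon
  push Not at hcon
  set T := Fintype.card (Fin k → Fin (n * L) × Fin G) with hT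
  have hTpos : 0 < T := by
    rw [hT]
    simp only [Fintype.card_pi, Fintype.card_prod, Fintype.card_fin, Finset.prod_const,
      Finset.card_univ]
    positivity
  let near : Finset (Fin n × Fin n) := univ.filter (fun p => f p.1 = f p.2 ∧ (p.1 : ℕ) < p.2 ∧
    (p.2 : ℕ) ≤ p.1 + 2 * r)
  let I : Finset (ℕ × ℕ × ℕ × ℕ) := range (2 * r + 1) ×ˢ range (2 * r + 1) ×ˢ
    range (2 * r + 1) ×ˢ range (2 * r + 1)
  have hI : I.card = (2 * r + 1) ^ 4 := by
    simp only [I, Finset.card_product, Finset.card_range]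
    ring
  let c : Fin n × Fin n → ℕ × ℕ × ℕ × ℕ → Finset (Fin k → Fin (n * L) × Fin G) := fun p i =>
    univ.filter (fun ω => Ev B Λ L g f μ p.1 i.1 i.2.1 ω ∧ Ev B Λ L g f μ p.2 i.2.2.1 i.2.2.2 ω)
  have hcover : (univ : Finset (Fin k → Fin (n * L) × Fin G)) ⊆
      near.biUnion (fun p => I.biUnion (fun i => c p i)) := by
    intro ω _
    obtain ⟨u, u', h1, h2, h3, h4, h5, -⟩ := hcon ω
    obtain ⟨p, hp, q, hq, h6⟩ := h4
    obtain ⟨p', hp', q', hq', h7⟩ := h5
    simp only [Finset.mem_biUnion]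
    refine ⟨(u, u'), ?_, (p, q, p', q'), ?_, ?_⟩
    · simp only [near, Finset.mem_filter, Finset.mem_univ, true_and]
      exact ⟨h1, h2, h3⟩
    · simp only [I, Finset.mem_product, Finset.mem_range]
      omega
    · simp only [c, Finset.mem_filter, Finset.mem_univ, true_and]
      exact ⟨h6, h7⟩
  have hcard : T ≤ ∑ p ∈ near, ∑ i ∈ I, (c p i).card := by
    calc T = (univ : Finset (Fin k → Fin (n * L) × Fin G)).card := by rw [hT, Finset.card_univ]
      _ ≤ _ := Finset.card_le_card hcover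
      _ ≤ ∑ p ∈ near, (I.biUnion (fun i => c p i)).card := Finset.card_biUnion_le
      _ ≤ _ := Finset.sum_le_sum fun p _ => Finset.card_biUnion_le
  have hterm : ∀ p ∈ near, ∀ i ∈ I, (c p i).card * (L * G) ≤
      (if p ∈ closePairs r Z f μ then G * T else 0) + r * T := by
    rintro ⟨u, u'⟩ hp ⟨p, q, p', q'⟩ hi
    simp only [near, Finset.mem_filter, Finset.mem_univ, true_and] at hp
    simp only [I, Finset.mem_product, Finset.mem_range] at hi
    by_cases hc : (u, u') ∈ closePairs r Z f μ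
    · rw [if_pos hc]
      have h1 := bound1 hB hdeg hn hL hG f hfk μ hprop (Λ := Λ) (g := g) u p q
        (fun ω => Ev B Λ L g f μ u p q ω ∧ Ev B Λ L g f μ u' p' q' ω)
        (fun _ => True) (fun ω h => h.1) (fun _ _ _ => trivial)
      simp only [Finset.filter_true, Finset.card_univ] at h1
      calc (c (u, u') (p, q, p', q')).card * (L * G)
          = (c (u, u') (p, q, p', q')).card * L * G := by ring
        _ ≤ T * G := by
          apply Nat.mul_le_mul_right
          convert h1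
        _ = G * T := mul_comm _ _
        _ ≤ _ := Nat.le_add_right _ _
    · rw [if_neg hc, zero_add]
      apply bound_far hB hdeg hn hL hG hr hrL hgZ hGL f hfk μ hprop u u' p q p' q' hp.1
        (by omega) (by omega)
      intro h
      apply hc
      simp only [closePairs, Finset.mem_filter, Finset.mem_univ, true_and]
      exact ⟨hp.1, hp.2.1, hp.2.2, h.1, h.2.1, h.2.2⟩
  have hnear : near.card ≤ 2 * r * n := near_card r _ (fun p hp => ⟨hp.2.1, hp.2.2⟩)
  have hclose : (near.filter (fun p => p ∈ closePairs r Z f μ)).card ≤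
      (closePairs r Z f μ).card := Finset.card_le_card (fun x hx => (Finset.mem_filter.1 hx).2)
  have hfin : T * (L * G) ≤ T * ((2 * r + 1) ^ 4 *
      ((closePairs r Z f μ).card * G + 2 * r * n * r)) := by
    calc T * (L * G) ≤ (∑ p ∈ near, ∑ i ∈ I, (c p i).card) * (L * G) :=
          Nat.mul_le_mul_right _ hcard
      _ = ∑ p ∈ near, ∑ i ∈ I, (c p i).card * (L * G) := by
          rw [Finset.sum_mul]
          exact Finset.sum_congr rfl fun p _ => by rw [Finset.sum_mul]
      _ ≤ ∑ p ∈ near, ∑ i ∈ I, ((if p ∈ closePairs r Z f μ then G * T else 0) + r * T) :=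
          Finset.sum_le_sum fun p hp => Finset.sum_le_sum fun i hi => hterm p hp i hi
      _ = ∑ p ∈ near, (2 * r + 1) ^ 4 *
            ((if p ∈ closePairs r Z f μ then G * T else 0) + r * T) := by
          refine Finset.sum_congr rfl fun p _ => ?_
          rw [Finset.sum_const, hI, smul_eq_mul]
      _ = (2 * r + 1) ^ 4 * ((near.filter (fun p => p ∈ closePairs r Z f μ)).card * (G * T) +
            near.card * (r * T)) := by
          rw [← Finset.mul_sum, Finset.sum_add_distrib, ← Finset.sum_filter, Finset.sum_const,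
            Finset.sum_const, smul_eq_mul, smul_eq_mul]
      _ ≤ (2 * r + 1) ^ 4 * ((closePairs r Z f μ).card * (G * T) + 2 * r * n * (r * T)) := by
          apply Nat.mul_le_mul_left
          exact Nat.add_le_add (Nat.mul_le_mul_right _ hclose) (Nat.mul_le_mul_right _ hnear)
      _ = _ := by ring
  have := Nat.le_of_mul_le_mul_left hfin hTpos
  omega

end

end Pool.Agent.R65.OM
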