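import Mathlib
import Pool.Agent.R65.OM.Exists

set_option autoImplicit false

namespace Pool.Agent.R65.OM

open Finset

/-- `H` is contained in `G` as an ordered graph. -/
def OrdContained {m N : ℕ} (H : SimpleGraph (Fin m)) (G : SimpleGraph (Fin N)) : Prop :=
  ∃ φ : Fin m → Fin N, StrictMono φ ∧ ∀ v w, H.Adj v w → G.Adj (φ v) (φ w)

/-- every red/blue colouring of the edges of the ordered complete graph on `N` vertices has a red
ordered copy of `M` or a blue ordered triangle. -/
def ArrowsTriangle {n : ℕ} (M : SimpleGraph (Fin n)) (N : ℕ) : Prop :=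
  ∀ red : SimpleGraph (Fin N), OrdContained M red ∨ OrdContained (⊤ : SimpleGraph (Fin 3)) redᶜ

theorem ordContained_of_finset {n N : ℕ} (M : SimpleGraph (Fin n)) (G : SimpleGraph (Fin N))
    (s : Finset (Fin N)) (hs : n ≤ s.card) (h : ∀ x ∈ s, ∀ y ∈ s, x ≠ y → G.Adj x y) :
    OrdContained M G := by
  obtain ⟨t, hts, ht⟩ := Finset.exists_subset_card_eq hs
  refine ⟨t.orderEmbOfFin ht, (t.orderEmbOfFin ht).strictMono, ?_⟩
  intro v w hvw
  apply h
  · exact hts (Finset.orderEmbOfFin_mem t ht v)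
  · exact hts (Finset.orderEmbOfFin_mem t ht w)
  · intro he
    exact hvw.ne ((t.orderEmbOfFin ht).injective he)

theorem arrow {n k r : ℕ} (hr : 244 ≤ r) (hrn : r ^ 20 ≤ n) (M : SimpleGraph (Fin n))
    (f : Fin n → ℕ) (hf : Monotone f) (hfk : ∀ v, f v < k)
    (μ : Fin n → Fin n) (hμ : ∀ v, μ (μ v) = v) (hprop : ∀ v, f (μ v) ≠ f v)
    (hMμ : ∀ v w, M.Adj v w → w = μ v)
    (hclose : (closePairs r (r ^ 10) f μ).card ≤ r ^ 14) :
    ArrowsTriangle M (k * ((n / r + 1) * (5 * n + 4 * r + 2))) := by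
  classical
  set L := n / r + 1 with hLdef
  set G := r ^ 10 with hGdef
  set g := L / G + 1 with hgdef
  set Λ := L * (5 * n + 4 * r + 2) with hΛ
  set N := k * Λ with hN
  have hr0 : 0 < r := by omega
  have hn0 : 0 < n := lt_of_lt_of_le (by positivity) hrn
  have hL0 : 0 < L := Nat.succ_pos _
  have hG0 : 0 < G := by positivity
  have hrL : n ≤ r * L := by
    rw [hLdef, mul_add, mul_one]
    have := Nat.div_add_mod n r
    have h2 := Nat.mod_lt n hr0
    omega
  have hgG : L ≤ g * G := by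
    rw [hgdef, add_mul, one_mul]
    have := Nat.div_add_mod L G
    have h2 := Nat.mod_lt L hG0
    have h3 : L / G * G = G * (L / G) := mul_comm _ _
    omega
  have hr19 : r ^ 19 ≤ L := by
    have : r ^ 19 ≤ n / r := by
      rw [Nat.le_div_iff_mul_le hr0]
      calc r ^ 19 * r = r ^ 20 := by ring
        _ ≤ n := hrn
    omega
  have hGL : G ≤ L := by
    calc G = r ^ 10 := rfl
      _ ≤ r ^ 19 := Nat.pow_le_pow_right hr0 (by norm_num)
      _ ≤ L := hr19
  have hgG2 : g * G ≤ 2 * L := by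
    rw [hgdef, add_mul, one_mul]
    have := Nat.div_add_mod L G
    have h3 : L / G * G = G * (L / G) := mul_comm _ _
    omega
  intro red
  by_cases htri : ∃ a b c : Fin N, redᶜ.Adj a b ∧ redᶜ.Adj b c ∧ redᶜ.Adj a c
  · right
    obtain ⟨a, b, c, hab, hbc, hac⟩ := htri
    apply ordContained_of_finset _ _ {a, b, c}
    · rw [Finset.card_eq_three.2 ⟨a, b, c, hab.ne, hac.ne, hbc.ne, rfl⟩]
    · intro x hx y hy hxy
      simp only [Finset.mem_insert, Finset.mem_singleton] at hx hy
      rcases hx with rfl | rfl | rfl <;> rcases hy with rfl | rfl | rfl <;>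
        first
          | exact absurd rfl hxy
          | exact hab
          | exact hbc
          | exact hac
          | exact hab.symm
          | exact hbc.symm
          | exact hac.symm
  left
  push Not at htri
  by_cases hdeg : ∃ y : Fin N, n ≤ (univ.filter (fun x => redᶜ.Adj y x)).card
  · obtain ⟨y, hy⟩ := hdeg
    apply ordContained_of_finset _ _ _ hy
    intro x hx x' hx' hne
    simp only [Finset.mem_filter, Finset.mem_univ, true_and] at hx hx'
    by_contra hred
    exact htri y x x' hx (by rw [SimpleGraph.compl_adj]; exact ⟨hne, hred⟩) hx'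
  push Not at hdeg
  let B : ℕ → ℕ → Prop := fun x y => ∃ (hx : x < N) (hy : y < N), redᶜ.Adj ⟨x, hx⟩ ⟨y, hy⟩
  have hB : ∀ x y, B x y → B y x := fun x y ⟨hx, hy, h⟩ => ⟨hy, hx, h.symm⟩
  have hBdeg : ∀ (y : ℕ) (s : Finset ℕ), (∀ x ∈ s, B x y) → s.card < n := by
    intro y s hs
    rcases s.eq_empty_or_nonempty with rfl | hne
    · simpa using hn0
    obtain ⟨x0, hx0⟩ := hne
    obtain ⟨-, hy, -⟩ := hs x0 hx0
    refine lt_of_le_of_lt ?_ (hdeg ⟨y, hy⟩)
    refine Finset.card_le_card_of_surjOn (fun x : Fin N => (x : ℕ)) ?_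
    intro x hx
    obtain ⟨h1, h2, h3⟩ := hs x hx
    refine ⟨⟨x, h1⟩, ?_, rfl⟩
    simp only [Finset.coe_filter, Finset.mem_univ, true_and, Set.mem_ofPred_eq]
    exact h3.symm
  -- parameters
  obtain ⟨ω, hω⟩ := exists_param (n := n) (k := k) (G := G) (L := L) (g := g) (r := r) (Z := G)
    (Λ := Λ) hB hBdeg hn0 hL0 hG0 hr0 hrL hgG hGL f hfk μ hprop (by
      have h1 : (2 * r + 1) ^ 4 ≤ 81 * r ^ 4 := by
        calc (2 * r + 1) ^ 4 ≤ (3 * r) ^ 4 := Nat.pow_le_pow_left (by omega) 4
          _ = 81 * r ^ 4 := by ring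
      have h2 : (closePairs r G f μ).card * G + 2 * r * n * r ≤ r ^ 4 * n + 2 * r ^ 2 * n := by
        apply Nat.add_le_add
        · calc (closePairs r G f μ).card * G ≤ r ^ 14 * r ^ 10 := Nat.mul_le_mul_right _ hclose
            _ = r ^ 4 * r ^ 20 := by ring
            _ ≤ r ^ 4 * n := Nat.mul_le_mul_left _ hrn
        · exact le_of_eq (by ring)
      have h3 : n * r ^ 9 ≤ L * G := by
        calc n * r ^ 9 ≤ (r * L) * r ^ 9 := Nat.mul_le_mul_right _ hrL
          _ = L * G := by rw [hGdef]; ring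
      have h4 : 243 * r ^ 8 < r ^ 9 := by
        calc 243 * r ^ 8 < 244 * r ^ 8 := by
              apply Nat.mul_lt_mul_of_pos_right (by norm_num) (by positivity)
          _ ≤ r * r ^ 8 := Nat.mul_le_mul_right _ hr
          _ = r ^ 9 := by ring
      calc (2 * r + 1) ^ 4 * ((closePairs r G f μ).card * G + 2 * r * n * r)
          ≤ (81 * r ^ 4) * (r ^ 4 * n + 2 * r ^ 2 * n) := Nat.mul_le_mul h1 h2
        _ = 81 * r ^ 8 * n + 162 * (r ^ 6 * n) := by ring
        _ ≤ 81 * r ^ 8 * n + 162 * (r ^ 8 * n) := by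
            apply Nat.add_le_add_left
            apply Nat.mul_le_mul_left
            apply Nat.mul_le_mul_right
            exact Nat.pow_le_pow_right hr0 (by norm_num)
        _ = n * (243 * r ^ 8) := by ring
        _ < n * r ^ 9 := Nat.mul_lt_mul_of_pos_left h4 hn0
        _ ≤ L * G := h3)
  -- the cells
  have hc : ∀ t : ℕ, (2 * L + g * (if h : t < k then ((ω ⟨t, h⟩).2 : ℕ) else 0)) ≤ 4 * L := by
    intro t
    have : g * (if h : t < k then ((ω ⟨t, h⟩).2 : ℕ) else 0) ≤ g * G := by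
      apply Nat.mul_le_mul_left
      split_ifs with h
      · exact (ω ⟨t, h⟩).2.2.le
      · exact Nat.zero_le _
    omega
  have ha : ∀ t : ℕ, (if h : t < k then ((ω ⟨t, h⟩).1 : ℕ) else 0) ≤ n * L := by
    intro t
    split_ifs with h
    · exact (ω ⟨t, h⟩).1.2.le
    · exact Nat.zero_le _
  have hub : ∀ t m, m ≤ 2 * n + 2 * r → St Λ L g ω t m + L ≤ (t + 1) * Λ := by
    intro t m hm
    unfold St
    have h1 := ha t
    have h2 := hc t
    have h3 : m / 2 ≤ n + r := by omega
    have h4 : (2 * L + g * (if h : t < k then ((ω ⟨t, h⟩).2 : ℕ) else 0)) * (m / 2) ≤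
        4 * L * (n + r) := Nat.mul_le_mul h2 h3
    have h5 : m % 2 * L ≤ 1 * L := Nat.mul_le_mul_right _ (by omega)
    have h6 : (t + 1) * Λ = t * Λ + (n * L + 4 * L * (n + r) + 2 * L) := by
      rw [hΛ]; ring
    rw [h6]
    omega
  have hlb : ∀ t m, t * Λ ≤ St Λ L g ω t m := by
    intro t m
    unfold St
    omega
  obtain ⟨φ, hφ1, hφ2, hφ3⟩ := embed (M := 2 * n + 2 * r) (N := N) hB hBdeg hL0 hrL f hf hfk μ hμ
    hprop (St Λ L g ω) le_rfl (by
      intro t m m' hmm
      unfold St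
      set c := (2 * L + g * (if h : t < k then ((ω ⟨t, h⟩).2 : ℕ) else 0)) with hcdef
      have h0 : 2 * L ≤ c := Nat.le_add_right _ _
      rcases Nat.eq_or_lt_of_le (Nat.div_le_div_right (c := 2) hmm.le) with h1 | h1
      · have h2 : m % 2 = 0 := by omega
        have h3 : m' % 2 = 1 := by omega
        rw [h1, h2, h3]
        omega
      · have h2 : c * (m / 2) + 2 * L ≤ c * (m' / 2) := by
          calc c * (m / 2) + 2 * L ≤ c * (m / 2) + c := by omega
            _ = c * (m / 2 + 1) := by ring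
            _ ≤ c * (m' / 2) := Nat.mul_le_mul_left _ h1
        have h5 : m % 2 * L ≤ 1 * L := Nat.mul_le_mul_right _ (by omega)
        omega) (by
      intro t m t' m' htt hm
      calc St Λ L g ω t m + L ≤ (t + 1) * Λ := hub t m hm
        _ ≤ t' * Λ := Nat.mul_le_mul_right _ htt
        _ ≤ _ := hlb t' m') (by
      intro t m ht hm
      calc St Λ L g ω t m + L ≤ (t + 1) * Λ := hub t m hm
        _ ≤ k * Λ := Nat.mul_le_mul_right _ ht) hω
  refine ⟨fun v => ⟨φ v, hφ2 v⟩, ?_, ?_⟩
  · intro u v huv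
    exact hφ1 huv
  · intro v w hvw
    have hw := hMμ v w hvw
    subst hw
    by_contra hred
    apply hφ3 v
    refine ⟨hφ2 _, hφ2 _, ?_⟩
    rw [SimpleGraph.compl_adj]
    refine ⟨?_, hred⟩
    intro he
    have h1 : φ v = φ (μ v) := by simpa using he
    exact hvw.ne (hφ1.injective h1)

end Pool.Agent.R65.OM
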