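import Mathlib
import Pool.Agent.R65.OM.Exists

set_option autoImplicit false

namespace Pool.Agent.R65.OM

open Finset

/-- the involutions `μ` with `f ∘ μ = τ` -/
def Inv {n k : ℕ} (f τ : Fin n → Fin k) : Finset (Fin n → Fin n) :=
  univ.filter (fun μ => (∀ v, μ (μ v) = v) ∧ ∀ v, f (μ v) = τ v)

theorem mem_Inv {n k : ℕ} {f τ : Fin n → Fin k} {μ : Fin n → Fin n} :
    μ ∈ Inv f τ ↔ (∀ v, μ (μ v) = v) ∧ ∀ v, f (μ v) = τ v := by
  simp [Inv]

theorem Inv_τ {n k : ℕ} {f τ : Fin n → Fin k} {μ : Fin n → Fin n} (h : μ ∈ Inv f τ) (v : Fin n) :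
    τ (μ v) = f v := by
  rw [mem_Inv] at h
  rw [← h.2 (μ v), h.1]

theorem card_window {n : ℕ} (x : Fin n) (W : ℕ) :
    (univ.filter (fun y : Fin n => y ≠ x ∧ (x : ℕ) ≤ y + W ∧ (y : ℕ) ≤ x + W)).card ≤ 2 * W := by
  classical
  have h : ((univ.filter (fun y : Fin n => y ≠ x ∧ (x : ℕ) ≤ y + W ∧ (y : ℕ) ≤ x + W)).image
      (fun y : Fin n => (y : ℕ))) ⊆ (Finset.Icc ((x : ℕ) - W) (x + W)).erase (x : ℕ) := by
    intro z hz
    simp only [Finset.mem_image, Finset.mem_filter, Finset.mem_univ, true_and] at hz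
    obtain ⟨y, ⟨h1, h2, h3⟩, rfl⟩ := hz
    rw [Finset.mem_erase, Finset.mem_Icc]
    refine ⟨fun h => h1 (Fin.ext h), by omega, by omega⟩
  have h2 := Finset.card_le_card h
  rw [Finset.card_image_of_injective _ (fun a b h => Fin.ext h), Finset.card_erase_of_mem
    (by rw [Finset.mem_Icc]; omega), Nat.card_Icc] at h2
  omega

theorem switch {n k : ℕ} (f τ : Fin n → Fin k) (hτ : ∀ v, τ v ≠ f v) (i i' : Fin n)
    (hii : i ≠ i') (hf : f i = f i') (ht : τ i = τ i') (W : ℕ) :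
    ((univ.filter (fun v => f v = τ i ∧ τ v = f i)).card - 1) *
      ((Inv f τ).filter (fun μ => (μ i : ℕ) ≤ μ i' + W ∧ (μ i' : ℕ) ≤ μ i + W)).card ≤
    2 * W * (Inv f τ).card := by
  classical
  set Sb := univ.filter (fun v => f v = τ i ∧ τ v = f i) with hSb
  have hmem : ∀ μ ∈ Inv f τ, μ i ∈ Sb := by
    intro μ hμ
    simp only [hSb, Finset.mem_filter, Finset.mem_univ, true_and]
    exact ⟨(mem_Inv.1 hμ).2 i, Inv_τ hμ i⟩
  have hmem' : ∀ μ ∈ Inv f τ, μ i' ∈ Sb := by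
    intro μ hμ
    simp only [hSb, Finset.mem_filter, Finset.mem_univ, true_and]
    rw [ht, hf]
    exact ⟨(mem_Inv.1 hμ).2 i', Inv_τ hμ i'⟩
  let Φ : (Fin n → Fin n) × Fin n → (Fin n → Fin n) × Fin n := fun p =>
    (fun v => Equiv.swap (p.1 i') p.2 (p.1 (Equiv.swap (p.1 i') p.2 v)), p.1 i')
  set X := ((Inv f τ) ×ˢ Sb).filter (fun p => p.2 ≠ p.1 i) with hX
  -- basic facts on Φ
  have hfix : ∀ μ ∈ Inv f τ, ∀ y ∈ Sb, Equiv.swap (μ i') y i = i := by
    intro μ hμ y hy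
    apply Equiv.swap_apply_of_ne_of_ne
    · intro h
      have := (mem_Inv.1 hμ).2 i'
      rw [← h, ← ht] at this
      exact hτ i this.symm
    · intro h
      simp only [hSb, Finset.mem_filter, Finset.mem_univ, true_and] at hy
      rw [← h] at hy
      exact hτ i hy.1.symm
  have hfix' : ∀ μ ∈ Inv f τ, ∀ y ∈ Sb, Equiv.swap (μ i') y i' = i' := by
    intro μ hμ y hy
    apply Equiv.swap_apply_of_ne_of_ne
    · intro h
      have := (mem_Inv.1 hμ).2 i'
      rw [← h] at this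
      exact hτ i' this.symm
    · intro h
      simp only [hSb, Finset.mem_filter, Finset.mem_univ, true_and] at hy
      rw [← h, ht] at hy
      exact hτ i' hy.1.symm
  have hinj : ∀ μ ∈ Inv f τ, μ i ≠ μ i' := by
    intro μ hμ h
    apply hii
    rw [← (mem_Inv.1 hμ).1 i, h, (mem_Inv.1 hμ).1]
  have hΦ1 : ∀ p ∈ X, (Φ p).1 i = p.1 i := by
    rintro ⟨μ, y⟩ hp
    simp only [hX, Finset.mem_filter, Finset.mem_product] at hp
    obtain ⟨⟨hμ, hy⟩, hne⟩ := hp
    simp only [Φ]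
    rw [hfix μ hμ y hy]
    exact Equiv.swap_apply_of_ne_of_ne (hinj μ hμ) hne.symm
  have hΦ2 : ∀ p ∈ X, (Φ p).1 i' = p.2 := by
    rintro ⟨μ, y⟩ hp
    simp only [hX, Finset.mem_filter, Finset.mem_product] at hp
    obtain ⟨⟨hμ, hy⟩, hne⟩ := hp
    simp only [Φ]
    rw [hfix' μ hμ y hy]
    exact Equiv.swap_apply_left _ _
  have hpres : ∀ a ∈ Sb, ∀ b ∈ Sb, ∀ v, f (Equiv.swap a b v) = f v ∧ τ (Equiv.swap a b v) = τ v := by
    intro a ha b hb v
    simp only [hSb, Finset.mem_filter, Finset.mem_univ, true_and] at ha hb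
    by_cases h1 : v = a
    · subst h1
      rw [Equiv.swap_apply_left]
      exact ⟨hb.1.trans ha.1.symm, hb.2.trans ha.2.symm⟩
    · by_cases h2 : v = b
      · subst h2
        rw [Equiv.swap_apply_right]
        exact ⟨ha.1.trans hb.1.symm, ha.2.trans hb.2.symm⟩
      · rw [Equiv.swap_apply_of_ne_of_ne h1 h2]
        exact ⟨rfl, rfl⟩
  have hΦX : ∀ p ∈ X, Φ p ∈ X := by
    intro p hp
    have e1 := hΦ1 p hp
    have hp' := hp
    simp only [hX, Finset.mem_filter, Finset.mem_product] at hp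
    obtain ⟨⟨hμ, hy⟩, hne⟩ := hp
    simp only [hX, Finset.mem_filter, Finset.mem_product]
    refine ⟨⟨?_, hmem' _ hμ⟩, ?_⟩
    · rw [mem_Inv]
      constructor
      · intro v
        simp only [Φ, Equiv.swap_apply_self]
        rw [(mem_Inv.1 hμ).1, Equiv.swap_apply_self]
      · intro v
        simp only [Φ]
        rw [(hpres _ (hmem' _ hμ) _ hy _).1, (mem_Inv.1 hμ).2, (hpres _ (hmem' _ hμ) _ hy _).2]
    · rw [e1]
      exact (hinj _ hμ).symm
  have hΦΦ : ∀ p ∈ X, Φ (Φ p) = p := by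
    intro p hp
    have e2 := hΦ2 p hp
    have e3 : (Φ p).2 = p.1 i' := rfl
    refine Prod.ext ?_ ?_
    · funext v
      change Equiv.swap ((Φ p).1 i') (Φ p).2 ((Φ p).1 (Equiv.swap ((Φ p).1 i') (Φ p).2 v)) = p.1 v
      rw [e2, e3]
      simp only [Φ]
      rw [Equiv.swap_comm p.2 (p.1 i'), Equiv.swap_apply_self, Equiv.swap_apply_self]
    · change (Φ p).1 i' = p.2
      exact e2
  have hA : ((X.filter (fun p => (p.1 i : ℕ) ≤ p.1 i' + W ∧ (p.1 i' : ℕ) ≤ p.1 i + W)).card) =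
      (X.filter (fun p => (p.1 i : ℕ) ≤ p.2 + W ∧ (p.2 : ℕ) ≤ p.1 i + W)).card := by
    refine Finset.card_nbij' Φ Φ ?_ ?_ ?_ ?_
    · intro p hp
      simp only [Finset.coe_filter, Set.mem_ofPred_eq] at hp ⊢
      refine ⟨hΦX p hp.1, ?_⟩
      rw [hΦ1 p hp.1]
      exact hp.2
    · intro p hp
      simp only [Finset.coe_filter, Set.mem_ofPred_eq] at hp ⊢
      refine ⟨hΦX p hp.1, ?_⟩
      rw [hΦ1 p hp.1, hΦ2 p hp.1]
      exact hp.2
    · intro p hp
      simp only [Finset.coe_filter, Set.mem_ofPred_eq] at hp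
      exact hΦΦ p hp.1
    · intro p hp
      simp only [Finset.coe_filter, Set.mem_ofPred_eq] at hp
      exact hΦΦ p hp.1
  -- left-hand side
  have hB1 : (Sb.card - 1) *
      ((Inv f τ).filter (fun μ => (μ i : ℕ) ≤ μ i' + W ∧ (μ i' : ℕ) ≤ μ i + W)).card =
      (X.filter (fun p => (p.1 i : ℕ) ≤ p.1 i' + W ∧ (p.1 i' : ℕ) ≤ p.1 i + W)).card := by
    rw [Finset.card_eq_sum_card_fiberwise (f := fun p : (Fin n → Fin n) × Fin n => p.1)
      (t := (Inv f τ).filter (fun μ => (μ i : ℕ) ≤ μ i' + W ∧ (μ i' : ℕ) ≤ μ i + W))]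
    · rw [mul_comm, ← smul_eq_mul, ← Finset.sum_const]
      refine Finset.sum_congr rfl fun μ hμ => ?_
      rw [Finset.mem_filter] at hμ
      rw [← Finset.card_erase_of_mem (hmem μ hμ.1)]
      refine Finset.card_nbij' (fun y => (μ, y)) (fun p => p.2) ?_ ?_ ?_ ?_
      · intro y hy
        simp only [Finset.coe_erase, Set.mem_sdiff, Finset.mem_coe, Set.mem_singleton_iff] at hy
        simp only [Finset.coe_filter, Finset.mem_filter, Set.mem_ofPred_eq, hX,
          Finset.mem_product]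
        exact ⟨⟨⟨⟨hμ.1, hy.1⟩, hy.2⟩, hμ.2⟩, trivial⟩
      · intro p hp
        simp only [Finset.coe_filter, Finset.mem_filter, Set.mem_ofPred_eq, hX,
          Finset.mem_product] at hp
        obtain ⟨⟨⟨⟨h1, h2⟩, h3⟩, h4⟩, h5⟩ := hp
        simp only [Finset.coe_erase, Set.mem_sdiff, Finset.mem_coe, Set.mem_singleton_iff]
        rw [h5] at h3
        exact ⟨h2, h3⟩
      · intro y _
        rfl
      · intro p hp
        simp only [Finset.coe_filter, Finset.mem_filter, Set.mem_ofPred_eq] at hp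
        exact Prod.ext hp.2.symm rfl
    · intro p hp
      simp only [Finset.coe_filter, Finset.mem_filter, Set.mem_ofPred_eq, hX,
        Finset.mem_product] at hp ⊢
      exact ⟨hp.1.1.1, hp.2⟩
  have hB2 : (X.filter (fun p => (p.1 i : ℕ) ≤ p.2 + W ∧ (p.2 : ℕ) ≤ p.1 i + W)).card ≤
      2 * W * (Inv f τ).card := by
    calc (X.filter (fun p => (p.1 i : ℕ) ≤ p.2 + W ∧ (p.2 : ℕ) ≤ p.1 i + W)).card
        ≤ 2 * W * ((X.filter (fun p => (p.1 i : ℕ) ≤ p.2 + W ∧
          (p.2 : ℕ) ≤ p.1 i + W)).image (fun p => p.1)).card := by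
          apply Finset.card_le_mul_card_image
          intro μ _
          refine le_trans ?_ (card_window (μ i) W)
          refine Finset.card_le_card_of_injOn (fun p => p.2) ?_ ?_
          · intro p hp
            simp only [Finset.coe_filter, Finset.mem_filter, Set.mem_ofPred_eq, hX,
              Finset.mem_product] at hp
            obtain ⟨⟨⟨⟨h1, h2⟩, h3⟩, h4⟩, h5⟩ := hp
            simp only [Finset.coe_filter, Finset.mem_univ, true_and, Set.mem_ofPred_eq]
            rw [h5] at h3 h4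
            exact ⟨h3, h4⟩
          · intro p hp p' hp' he
            simp only [Finset.coe_filter, Finset.mem_filter, Set.mem_ofPred_eq] at hp hp'
            exact Prod.ext (hp.2.trans hp'.2.symm) he
      _ ≤ 2 * W * (Inv f τ).card := by
          apply Nat.mul_le_mul_left
          apply Finset.card_le_card
          intro μ hμ
          simp only [Finset.mem_image, Finset.mem_filter, hX, Finset.mem_product] at hμ
          obtain ⟨p, ⟨⟨⟨h1, -⟩, -⟩, -⟩, rfl⟩ := hμ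
          exact h1
  rw [hB1, hA]
  exact hB2

end Pool.Agent.R65.OM
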