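import Mathlib
import Pool.Agent.R65.OM.Count

set_option autoImplicit false

namespace Pool.Agent.R65.OM

open Finset

theorem near_card' {n : ℕ} (r : ℕ) (Q : Fin n × Fin n → Prop) (s : Finset (Fin n))
    [DecidablePred Q]
    (hQ : ∀ p, Q p → p.1 ∈ s ∧ (p.1 : ℕ) < p.2 ∧ (p.2 : ℕ) ≤ p.1 + 2 * r) :
    (univ.filter Q).card ≤ 2 * r * s.card := by
  classical
  have h : (univ.filter Q).card ≤ 2 * r * ((univ.filter Q).image (fun p => p.1)).card := by
    apply Finset.card_le_mul_card_image
    intro a _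
    have : (((univ.filter Q).filter (fun p => p.1 = a)).image (fun p => (p.2 : ℕ))) ⊆
        Finset.Ioc (a : ℕ) (a + 2 * r) := by
      intro x hx
      simp only [Finset.mem_image, Finset.mem_filter, Finset.mem_univ, true_and] at hx
      obtain ⟨p, ⟨h1, rfl⟩, rfl⟩ := hx
      have := hQ p h1
      simp only [Finset.mem_Ioc]
      omega
    have h2 := Finset.card_le_card this
    rw [Finset.card_image_of_injOn] at h2
    · simpa using h2
    · rintro ⟨x, y⟩ hx ⟨x', y'⟩ hx' heq
      simp only [Finset.coe_filter, Finset.mem_filter, Finset.mem_univ, true_and,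
        Set.mem_ofPred_eq] at hx hx' heq
      obtain ⟨-, rfl⟩ := hx
      obtain ⟨-, rfl⟩ := hx'
      rw [Fin.ext heq]
  calc (univ.filter Q).card ≤ _ := h
    _ ≤ 2 * r * s.card := by
      apply Nat.mul_le_mul_left
      apply Finset.card_le_card
      intro x hx
      simp only [Finset.mem_image, Finset.mem_filter, Finset.mem_univ, true_and] at hx
      obtain ⟨p, h1, rfl⟩ := hx
      exact (hQ p h1).1

theorem sum_close {n k : ℕ} (f τ : Fin n → Fin k) (hτ : ∀ v, τ v ≠ f v) (r Z : ℕ) :
    ∑ μ ∈ Inv f τ, (closePairs r Z (fun v => (f v : ℕ)) μ).card ≤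
      k ^ 2 * (8 * r * (Z + r) * (Inv f τ).card) := by
  classical
  set W := Z + r with hW
  let β : Fin n × Fin n → ℕ := fun p =>
    ((Inv f τ).filter (fun μ => (μ p.1 : ℕ) ≤ μ p.2 + W ∧ (μ p.2 : ℕ) ≤ μ p.1 + W)).card
  let cond : Fin n × Fin n → Prop := fun p => f p.1 = f p.2 ∧ τ p.1 = τ p.2 ∧
    (p.1 : ℕ) < p.2 ∧ (p.2 : ℕ) ≤ p.1 + 2 * r
  have h1 : ∑ μ ∈ Inv f τ, (closePairs r Z (fun v => (f v : ℕ)) μ).card ≤
      ∑ p ∈ univ.filter cond, β p := by
    calc ∑ μ ∈ Inv f τ, (closePairs r Z (fun v => (f v : ℕ)) μ).card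
        = ∑ μ ∈ Inv f τ, ∑ p : Fin n × Fin n,
            (if p ∈ closePairs r Z (fun v => (f v : ℕ)) μ then 1 else 0) := by
          refine Finset.sum_congr rfl fun μ _ => ?_
          rw [← Finset.card_filter, Finset.filter_univ_mem]
      _ = ∑ p : Fin n × Fin n, ∑ μ ∈ Inv f τ,
            (if p ∈ closePairs r Z (fun v => (f v : ℕ)) μ then 1 else 0) := Finset.sum_comm
      _ = ∑ p : Fin n × Fin n,
            ((Inv f τ).filter (fun μ => p ∈ closePairs r Z (fun v => (f v : ℕ)) μ)).card := by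
          refine Finset.sum_congr rfl fun p _ => ?_
          rw [Finset.card_filter]
      _ ≤ ∑ p : Fin n × Fin n, (if cond p then β p else 0) := by
          refine Finset.sum_le_sum fun p _ => ?_
          by_cases hc : cond p
          · rw [if_pos hc]
            apply Finset.card_le_card
            intro μ hμ
            simp only [Finset.mem_filter, closePairs, Finset.mem_univ, true_and] at hμ ⊢
            exact ⟨hμ.1, hμ.2.2.2.2.2⟩
          · rw [if_neg hc, Nat.le_zero, Finset.card_eq_zero, Finset.filter_eq_empty_iff]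
            intro μ hμ hp
            simp only [Finset.mem_filter, closePairs, Finset.mem_univ, true_and] at hp
            apply hc
            refine ⟨Fin.ext hp.1, ?_, hp.2.1, hp.2.2.1⟩
            have := (mem_Inv.1 hμ).2
            rw [← this, ← this]
            exact Fin.ext hp.2.2.2.1
      _ = ∑ p ∈ univ.filter cond, β p := by rw [Finset.sum_filter]
  have h2 : ∑ p ∈ univ.filter cond, β p = ∑ ab : Fin k × Fin k,
      ∑ p ∈ (univ.filter cond).filter (fun p => (f p.1, τ p.1) = ab), β p :=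
    (Finset.sum_fiberwise _ _ _).symm
  have h3 : ∀ ab : Fin k × Fin k,
      ∑ p ∈ (univ.filter cond).filter (fun p => (f p.1, τ p.1) = ab), β p ≤
        8 * r * W * (Inv f τ).card := by
    rintro ⟨a, b⟩
    set Q := (univ.filter cond).filter (fun p => (f p.1, τ p.1) = (a, b)) with hQ
    rcases (Inv f τ).eq_empty_or_nonempty with he | ⟨μ0, hμ0⟩
    · have : ∀ p ∈ Q, β p = 0 := by
        intro p _
        simp only [β, he, Finset.filter_empty, Finset.card_empty]
      rw [Finset.sum_congr rfl this]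
      simp
    set Sab := univ.filter (fun v => f v = a ∧ τ v = b) with hSab
    set Sba := univ.filter (fun v => f v = b ∧ τ v = a) with hSba
    have hcardS : Sab.card = Sba.card := by
      refine Finset.card_nbij' μ0 μ0 ?_ ?_ ?_ ?_
      · intro v hv
        simp only [hSab, hSba, Finset.coe_filter, Finset.mem_univ, true_and,
          Set.mem_ofPred_eq] at hv ⊢
        rw [(mem_Inv.1 hμ0).2, Inv_τ hμ0]
        exact ⟨hv.2, hv.1⟩
      · intro v hv
        simp only [hSab, hSba, Finset.coe_filter, Finset.mem_univ, true_and,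
          Set.mem_ofPred_eq] at hv ⊢
        rw [(mem_Inv.1 hμ0).2, Inv_τ hμ0]
        exact ⟨hv.2, hv.1⟩
      · intro v _
        exact (mem_Inv.1 hμ0).1 v
      · intro v _
        exact (mem_Inv.1 hμ0).1 v
    rcases Q.eq_empty_or_nonempty with hQe | ⟨p0, hp0⟩
    · rw [hQe, Finset.sum_empty]
      exact Nat.zero_le _
    have hQcard : Q.card ≤ 2 * r * Sab.card := by
      have : Q = univ.filter (fun p => cond p ∧ (f p.1, τ p.1) = (a, b)) := by
        rw [hQ, Finset.filter_filter]
      rw [this]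
      apply near_card'
      rintro p ⟨hp1, hp2⟩
      simp only [Prod.mk.injEq] at hp2
      refine ⟨?_, hp1.2.2.1, hp1.2.2.2⟩
      simp only [hSab, Finset.mem_filter, Finset.mem_univ, true_and]
      exact hp2
    have hβ : ∀ p ∈ Q, Sba.card * β p ≤ 4 * W * (Inv f τ).card := by
      intro p hp
      simp only [hQ, Finset.mem_filter, Finset.mem_univ, true_and, Prod.mk.injEq] at hp
      obtain ⟨⟨hc1, hc2, hc3, hc4⟩, hfa, hτb⟩ := hp
      have hne : p.1 ≠ p.2 := by
        intro h
        rw [h] at hc3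
        exact absurd hc3 (lt_irrefl _)
      have hsw := switch f τ hτ p.1 p.2 hne hc1 hc2 W
      have hS : (univ.filter (fun v => f v = τ p.1 ∧ τ v = f p.1)) = Sba := by
        rw [hfa, hτb]
      rw [hS] at hsw
      -- two elements of `Sba`
      have h2S : 2 ≤ Sba.card := by
        rw [← hcardS]
        apply Finset.one_lt_card.2
        refine ⟨p.1, ?_, p.2, ?_, hne⟩
        · simp only [hSab, Finset.mem_filter, Finset.mem_univ, true_and]
          exact ⟨hfa, hτb⟩
        · simp only [hSab, Finset.mem_filter, Finset.mem_univ, true_and]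
          exact ⟨hc1 ▸ hfa, hc2 ▸ hτb⟩
      calc Sba.card * β p ≤ (2 * (Sba.card - 1)) * β p := Nat.mul_le_mul_right _ (by omega)
        _ = 2 * ((Sba.card - 1) * β p) := by ring
        _ ≤ 2 * (2 * W * (Inv f τ).card) := Nat.mul_le_mul_left _ hsw
        _ = 4 * W * (Inv f τ).card := by ring
    have hSpos : 0 < Sba.card := by
      rw [← hcardS]
      apply Finset.card_pos.2
      refine ⟨p0.1, ?_⟩
      simp only [hQ, Finset.mem_filter, Finset.mem_univ, true_and, Prod.mk.injEq] at hp0
      simp only [hSab, Finset.mem_filter, Finset.mem_univ, true_and]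
      exact hp0.2
    have hfin : Sba.card * ∑ p ∈ Q, β p ≤ Sba.card * (8 * r * W * (Inv f τ).card) := by
      calc Sba.card * ∑ p ∈ Q, β p = ∑ p ∈ Q, Sba.card * β p := Finset.mul_sum _ _ _
        _ ≤ ∑ _p ∈ Q, 4 * W * (Inv f τ).card := Finset.sum_le_sum hβ
        _ = Q.card * (4 * W * (Inv f τ).card) := by rw [Finset.sum_const, smul_eq_mul]
        _ ≤ (2 * r * Sba.card) * (4 * W * (Inv f τ).card) := by
            rw [← hcardS]
            exact Nat.mul_le_mul_right _ hQcard
        _ = Sba.card * (8 * r * W * (Inv f τ).card) := by ring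
    exact Nat.le_of_mul_le_mul_left hfin hSpos
  calc _ ≤ ∑ p ∈ univ.filter cond, β p := h1
    _ = _ := h2
    _ ≤ ∑ _ab : Fin k × Fin k, 8 * r * W * (Inv f τ).card := Finset.sum_le_sum fun ab _ => h3 ab
    _ = k ^ 2 * (8 * r * W * (Inv f τ).card) := by
        rw [Finset.sum_const, smul_eq_mul, Finset.card_univ, Fintype.card_prod, Fintype.card_fin,
          sq]

theorem markov {n k : ℕ} (f τ : Fin n → Fin k) (hτ : ∀ v, τ v ≠ f v) (r : ℕ) (hr : 0 < r) :
    r ^ 3 * ((Inv f τ).filter
      (fun μ => r ^ 14 < (closePairs r (r ^ 10) (fun v => (f v : ℕ)) μ).card)).card ≤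
      16 * k ^ 2 * (Inv f τ).card := by
  classical
  set Bd := (Inv f τ).filter
      (fun μ => r ^ 14 < (closePairs r (r ^ 10) (fun v => (f v : ℕ)) μ).card) with hBd
  have h1 : r ^ 14 * Bd.card ≤
      ∑ μ ∈ Inv f τ, (closePairs r (r ^ 10) (fun v => (f v : ℕ)) μ).card := by
    calc r ^ 14 * Bd.card = ∑ _μ ∈ Bd, r ^ 14 := by
          rw [Finset.sum_const, smul_eq_mul, mul_comm]
      _ ≤ ∑ μ ∈ Bd, (closePairs r (r ^ 10) (fun v => (f v : ℕ)) μ).card := by
          refine Finset.sum_le_sum fun μ hμ => ?_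
          exact ((Finset.mem_filter.1 hμ).2).le
      _ ≤ _ := Finset.sum_le_sum_of_subset (Finset.filter_subset _ _)
  have h2 := sum_close f τ hτ r (r ^ 10)
  have h4 : r ≤ r ^ 10 := Nat.le_self_pow (by norm_num) r
  have h3 : r ^ 11 * (r ^ 3 * Bd.card) ≤ r ^ 11 * (16 * k ^ 2 * (Inv f τ).card) := by
    calc _ = r ^ 14 * Bd.card := by ring
      _ ≤ _ := h1
      _ ≤ _ := h2
      _ ≤ k ^ 2 * (8 * r * (2 * r ^ 10) * (Inv f τ).card) :=
          Nat.mul_le_mul_left _ (Nat.mul_le_mul_right _ (Nat.mul_le_mul_left _ (by omega)))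
      _ = _ := by ring
  exact Nat.le_of_mul_le_mul_left h3 (by positivity)

end Pool.Agent.R65.OM
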