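import Mathlib
import Pool.Agent.R65.OM.Average

set_option autoImplicit false

namespace Pool.Agent.R65.OM

open Finset

/-- `M` is an ordered matching on the vertex set `Fin n` (with its natural order): every vertex has
exactly one neighbour. -/
def IsOrderedMatching {n : ℕ} (M : SimpleGraph (Fin n)) : Prop := ∀ v, ∃! w, M.Adj v w

/-- The vertex order can be cut into `k` consecutive intervals (the fibres of a monotone map), none
of which contains both ends of an edge. -/
def HasIntervalColouring {n : ℕ} (M : SimpleGraph (Fin n)) (k : ℕ) : Prop :=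
  ∃ f : Fin n → Fin k, Monotone f ∧ ∀ v w, M.Adj v w → f v ≠ f w

/-- The set of all ordered matchings on `n` vertices with interval chromatic number `k`. -/
def matchingsWithChi (n k : ℕ) : Set (SimpleGraph (Fin n)) :=
  {M | IsOrderedMatching M ∧ IsLeast {j | HasIntervalColouring M j} k}

/-- the data of the greedy interval colouring -/
def Greedy {n k : ℕ} (f τ : Fin n → Fin k) : Prop :=
  Monotone f ∧ (∀ v, τ v ≠ f v) ∧
  (∀ v, (∀ u, u < v → f u < f v) → (f v : ℕ) ≠ 0 → (τ v : ℕ) + 1 = f v) ∧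
  ∃ v, (f v : ℕ) + 1 = k

theorem greedy_le {n k j : ℕ} {f τ : Fin n → Fin k} (hG : Greedy f τ) {μ : Fin n → Fin n}
    (hμ : μ ∈ Inv f τ) (g : Fin n → Fin j) (hg : Monotone g) (hgp : ∀ v, g (μ v) ≠ g v) :
    ∀ v, (f v : ℕ) ≤ g v := by
  intro v
  induction v using WellFoundedLT.induction with
  | ind v ih =>
    by_cases h0 : (f v : ℕ) = 0
    · omega
    by_cases h : ∃ u, u < v ∧ f u = f v
    · obtain ⟨u, hu, hfu⟩ := h
      rw [← hfu]
      exact (ih u hu).trans (hg hu.le)
    · push Not at h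
      have hfirst : ∀ u, u < v → f u < f v := fun u hu =>
        lt_of_le_of_ne (hG.1 hu.le) (h u hu)
      have h1 := hG.2.2.1 v hfirst h0
      have h2 : f (μ v) = τ v := (mem_Inv.1 hμ).2 v
      have h3 : (f (μ v) : ℕ) + 1 = f v := by rw [h2]; exact h1
      have h4 : μ v < v := by
        by_contra hcon
        have h5 : (f v : ℕ) ≤ f (μ v) := hG.1 (not_lt.1 hcon)
        omega
      have h5 := ih (μ v) h4
      have h6 : (g (μ v) : ℕ) ≤ g v := hg h4.le
      have h7 : (g (μ v) : ℕ) ≠ g v := fun h => hgp v (Fin.ext h)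
      omega

theorem exists_greedy {n k : ℕ} (hn : 0 < n) (μ : Fin n → Fin n)
    (hμ : ∀ v, μ (μ v) = v) (f0 : Fin n → Fin k) (hf0 : Monotone f0)
    (hf0p : ∀ v, f0 (μ v) ≠ f0 v)
    (hmin : ∀ j, j < k → ∀ g : Fin n → Fin j, Monotone g → ¬ ∀ v, g (μ v) ≠ g v) :
    ∃ f : Fin n → Fin k, Greedy f (f ∘ μ) := by
  classical
  have hk : 0 < k := by
    have := (f0 ⟨0, hn⟩).2
    omega
  obtain ⟨f, hf, hfmin⟩ := Finset.exists_min_image
    (univ.filter (fun f : Fin n → Fin k => Monotone f ∧ ∀ v, f (μ v) ≠ f v))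
    (fun f => ∑ v, (f v : ℕ)) ⟨f0, by simp only [Finset.mem_filter, Finset.mem_univ, true_and]; exact ⟨hf0, hf0p⟩⟩
  simp only [Finset.mem_filter, Finset.mem_univ, true_and] at hf hfmin
  refine ⟨f, hf.1, fun v => hf.2 v, ?_, ?_⟩
  · intro v hfirst h0
    by_contra hne
    have hlt : (f v : ℕ) - 1 < k := by have := (f v).2; omega
    set f' : Fin n → Fin k := Function.update f v ⟨(f v : ℕ) - 1, hlt⟩ with hf'
    have hv' : (f' v : ℕ) = (f v : ℕ) - 1 := by simp [hf']
    have hne' : ∀ u, u ≠ v → f' u = f u := fun u hu => by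
      rw [hf', Function.update_of_ne hu]
    have hm : Monotone f' := by
      intro u w huw
      by_cases h1 : u = v
      · by_cases h2 : w = v
        · rw [h1, h2]
        · rw [h1, hne' w h2]
          have : (f v : ℕ) ≤ f w := hf.1 (by rw [← h1]; exact huw)
          change (f' v : ℕ) ≤ f w
          omega
      · by_cases h2 : w = v
        · rw [h2, hne' u h1]
          have h3 : (f u : ℕ) < f v := hfirst u (lt_of_le_of_ne (by rw [← h2]; exact huw) h1)
          change (f u : ℕ) ≤ f' v
          omega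
        · rw [hne' u h1, hne' w h2]
          exact hf.1 huw
    have hμne : ∀ v, μ v ≠ v := fun v h => hf.2 v (by rw [h])
    have hp : ∀ u, f' (μ u) ≠ f' u := by
      intro u
      by_cases h1 : u = v
      · subst h1
        rw [hne' (μ u) (hμne u)]
        intro h
        apply hne
        have : (f (μ u) : ℕ) = f' u := by rw [h]
        rw [hv'] at this
        simp only [Function.comp_apply]
        omega
      · by_cases h2 : μ u = v
        · rw [h2, hne' u h1]
          intro h
          apply hne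
          have h3 : μ v = u := by rw [← h2, hμ]
          have : (f' v : ℕ) = f u := by rw [h]
          rw [hv'] at this
          simp only [Function.comp_apply, h3]
          omega
        · rw [hne' u h1, hne' _ h2]
          exact hf.2 u
    have hsum := hfmin f' ⟨hm, hp⟩
    have hlt2 : ∑ u, (f' u : ℕ) < ∑ u, (f u : ℕ) := by
      apply Finset.sum_lt_sum
      · intro u _
        by_cases h1 : u = v
        · rw [h1, hv']
          omega
        · rw [hne' u h1]
      · refine ⟨v, Finset.mem_univ _, ?_⟩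
        rw [hv']
        omega
    omega
  · by_contra hcon
    push Not at hcon
    have hlt : ∀ v, (f v : ℕ) < k - 1 := by
      intro v
      have h1 := (f v).2
      have h2 := hcon v
      omega
    apply hmin (k - 1) (by omega) (fun v => ⟨f v, hlt v⟩)
    · intro u v huv
      exact hf.1 huv
    · intro v h
      apply hf.2 v
      have : (f (μ v) : ℕ) = f v := by simpa using h
      exact Fin.ext this

/-- the graph of a fixed point free involution -/
def graphOf {n : ℕ} (μ : Fin n → Fin n) : SimpleGraph (Fin n) where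
  Adj v w := v ≠ w ∧ w = μ v ∧ v = μ w
  symm := ⟨fun _ _ h => ⟨h.1.symm, h.2.2, h.2.1⟩⟩
  loopless := ⟨fun _ h => h.1 rfl⟩

theorem graphOf_adj {n k : ℕ} {f τ : Fin n → Fin k} (hG : Greedy f τ) {μ : Fin n → Fin n}
    (hμ : μ ∈ Inv f τ) (v w : Fin n) : (graphOf μ).Adj v w ↔ w = μ v := by
  rw [mem_Inv] at hμ
  constructor
  · intro h
    exact h.2.1
  · rintro rfl
    refine ⟨?_, rfl, (hμ.1 v).symm⟩
    intro h
    have := hμ.2 v
    rw [← h] at this
    exact hG.2.1 v this.symm

theorem graphOf_mem {n k : ℕ} {f τ : Fin n → Fin k} (hG : Greedy f τ) {μ : Fin n → Fin n}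
    (hμ : μ ∈ Inv f τ) : graphOf μ ∈ matchingsWithChi n k := by
  have hadj := graphOf_adj hG hμ
  refine ⟨fun v => ⟨μ v, (hadj v _).2 rfl, fun w hw => (hadj v w).1 hw⟩, ⟨f, hG.1, ?_⟩, ?_⟩
  · intro v w hvw
    rw [hadj] at hvw
    subst hvw
    rw [(mem_Inv.1 hμ).2 v]
    exact (hG.2.1 v).symm
  · rintro j ⟨g, hg, hgp⟩
    obtain ⟨v, hv⟩ := hG.2.2.2
    have := greedy_le hG hμ g hg (fun v => (hgp v (μ v) ((hadj v _).2 rfl)).symm) v
    have h2 := (g v).2
    omega

/-- the property of a matching which is used -/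
def GoodM {n : ℕ} (k r : ℕ) (M : SimpleGraph (Fin n)) : Prop :=
  ∃ (f : Fin n → Fin k) (μ : Fin n → Fin n), Monotone f ∧ (∀ v, μ (μ v) = v) ∧
    (∀ v, f (μ v) ≠ f v) ∧ (∀ v w, M.Adj v w → w = μ v) ∧
    (closePairs r (r ^ 10) (fun v => (f v : ℕ)) μ).card ≤ r ^ 14

open Classical in
theorem bad_le {n k r : ℕ} (hn : 0 < n) (hk : 0 < k) (hr : 0 < r) :
    r ^ 3 * (univ.filter (fun M : SimpleGraph (Fin n) =>
      M ∈ matchingsWithChi n k ∧ ¬ GoodM k r M)).card ≤
    16 * k ^ 2 * (univ.filter (fun M : SimpleGraph (Fin n) => M ∈ matchingsWithChi n k)).card := by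
  set A := univ.filter (fun M : SimpleGraph (Fin n) => M ∈ matchingsWithChi n k) with hA
  have hD : ∀ M : SimpleGraph (Fin n), ∃ p : (Fin n → Fin k) × (Fin n → Fin n), M ∈ A →
      (Greedy p.1 (p.1 ∘ p.2) ∧ (∀ v w, M.Adj v w ↔ w = p.2 v) ∧ ∀ v, p.2 (p.2 v) = v) := by
    intro M
    by_cases hM : M ∈ A
    · have hM' := hM
      simp only [hA, Finset.mem_filter, Finset.mem_univ, true_and] at hM'
      obtain ⟨h1, ⟨f0, hf0, hf0p⟩, h3⟩ := hM'
      choose μ hμ1 hμ2 using h1
      have hadj : ∀ v w, M.Adj v w ↔ w = μ v := fun v w =>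
        ⟨fun h => hμ2 v w h, fun h => by rw [h]; exact hμ1 v⟩
      have hinv : ∀ v, μ (μ v) = v := fun v => ((hadj (μ v) v).1 (hμ1 v).symm).symm
      obtain ⟨f, hf⟩ := exists_greedy hn μ hinv f0 hf0
        (fun v => (hf0p v (μ v) (hμ1 v)).symm) (by
          intro j hj g hg hgp
          have : k ≤ j := h3 ⟨g, hg, fun v w hvw => by
            rw [hadj] at hvw
            subst hvw
            exact (hgp v).symm⟩
          omega)
      exact ⟨(f, μ), fun _ => ⟨hf, hadj, hinv⟩⟩
    · exact ⟨(fun _ => ⟨0, hk⟩, id), fun h => absurd h hM⟩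
  choose d hd using hD
  have hfil : (univ.filter (fun M : SimpleGraph (Fin n) =>
      M ∈ matchingsWithChi n k ∧ ¬ GoodM k r M)) = A.filter (fun M => ¬ GoodM k r M) := by
    rw [hA, Finset.filter_filter]
  rw [hfil]
  let D : SimpleGraph (Fin n) → (Fin n → Fin k) × (Fin n → Fin k) :=
    fun M => ((d M).1, (d M).1 ∘ (d M).2)
  have hsum1 : (A.filter (fun M => ¬ GoodM k r M)).card =
      ∑ e ∈ A.image D, ((A.filter (fun M => ¬ GoodM k r M)).filter (fun M => D M = e)).card := by
    apply Finset.card_eq_sum_card_fiberwise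
    intro M hM
    simp only [Finset.coe_filter, Set.mem_ofPred_eq] at hM
    exact Finset.mem_coe.2 (Finset.mem_image_of_mem _ hM.1)
  have hsum2 : A.card = ∑ e ∈ A.image D, (A.filter (fun M => D M = e)).card :=
    Finset.card_eq_sum_card_image D A
  rw [hsum1, hsum2, Finset.mul_sum, Finset.mul_sum]
  refine Finset.sum_le_sum fun e he => ?_
  obtain ⟨M0, hM0, rfl⟩ := Finset.mem_image.1 he
  obtain ⟨hG, hadj0, hinv0⟩ := hd M0 hM0
  set f := (d M0).1 with hf
  set τ := (d M0).1 ∘ (d M0).2 with hτ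
  have hDM0 : D M0 = (f, τ) := rfl
  rw [hDM0]
  have hup : ((A.filter (fun M => ¬ GoodM k r M)).filter (fun M => D M = (f, τ))).card ≤
      ((Inv f τ).filter
        (fun μ => r ^ 14 < (closePairs r (r ^ 10) (fun v => (f v : ℕ)) μ).card)).card := by
    refine Finset.card_le_card_of_injOn (fun M => (d M).2) ?_ ?_
    · intro M hM
      simp only [Finset.coe_filter, Finset.mem_filter, Set.mem_ofPred_eq] at hM ⊢
      obtain ⟨⟨hMA, hbad⟩, hDM⟩ := hM
      obtain ⟨hG', hadj', hinv'⟩ := hd M hMA
      have e1 : (D M).1 = f := by rw [hDM]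
      have e2 : (D M).2 = τ := by rw [hDM]
      have e1 : (d M).1 = f := e1
      have e2 : (d M).1 ∘ (d M).2 = τ := e2
      have e3 : ∀ v, f ((d M).2 v) = τ v := fun v => by rw [← e2, ← e1]; rfl
      refine ⟨mem_Inv.2 ⟨hinv', e3⟩, ?_⟩
      by_contra hcon
      apply hbad
      refine ⟨f, (d M).2, hG.1, hinv', ?_, fun v w h => (hadj' v w).1 h, not_lt.1 hcon⟩
      intro v
      rw [e3]
      exact hG.2.1 v
    · intro M hM M' hM' he
      simp only [Finset.coe_filter, Finset.mem_filter, Set.mem_ofPred_eq] at hM hM' he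
      obtain ⟨-, hadj, -⟩ := hd M hM.1.1
      obtain ⟨-, hadj', -⟩ := hd M' hM'.1.1
      ext v w
      rw [hadj, hadj', he]
  have hlow : (Inv f τ).card ≤ (A.filter (fun M => D M = (f, τ))).card := by
    refine Finset.card_le_card_of_injOn graphOf ?_ ?_
    · intro μ hμ
      have hμ' : μ ∈ Inv f τ := hμ
      have hmem := graphOf_mem hG hμ'
      have hA' : graphOf μ ∈ A := by
        simp only [hA, Finset.mem_filter, Finset.mem_univ, true_and]
        exact hmem
      simp only [Finset.coe_filter, Set.mem_ofPred_eq]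
      refine ⟨hA', ?_⟩
      obtain ⟨hG', hadj', hinv'⟩ := hd (graphOf μ) hA'
      have hadjμ := graphOf_adj hG hμ'
      have hμeq : (d (graphOf μ)).2 = μ := by
        funext v
        exact (hadjμ v _).1 ((hadj' v _).2 rfl)
      have hInv' : μ ∈ Inv (d (graphOf μ)).1 ((d (graphOf μ)).1 ∘ (d (graphOf μ)).2) := by
        rw [mem_Inv]
        refine ⟨(mem_Inv.1 hμ').1, fun v => ?_⟩
        rw [hμeq]; rfl
      have hfeq : (d (graphOf μ)).1 = f := by
        funext v
        apply Fin.ext
        apply le_antisymm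
        · apply greedy_le hG' hInv' f hG.1
          intro v
          rw [(mem_Inv.1 hμ').2 v]
          exact hG.2.1 v
        · apply greedy_le hG hμ' _ hG'.1
          intro v
          have := hG'.2.1 v
          rw [hμeq] at this
          exact this
      have : D (graphOf μ) = ((d (graphOf μ)).1, (d (graphOf μ)).1 ∘ (d (graphOf μ)).2) := rfl
      rw [this, hfeq, hμeq]
      congr 1
      funext v
      exact (mem_Inv.1 hμ').2 v
    · intro μ hμ μ' hμ' he
      funext v
      have h1 := (graphOf_adj hG hμ v (μ v)).2 rfl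
      rw [he] at h1
      exact (graphOf_adj hG hμ' v _).1 h1
  calc r ^ 3 * ((A.filter (fun M => ¬ GoodM k r M)).filter (fun M => D M = (f, τ))).card
      ≤ r ^ 3 * ((Inv f τ).filter
        (fun μ => r ^ 14 < (closePairs r (r ^ 10) (fun v => (f v : ℕ)) μ).card)).card :=
        Nat.mul_le_mul_left _ hup
    _ ≤ 16 * k ^ 2 * (Inv f τ).card := markov f τ hG.2.1 r hr
    _ ≤ _ := Nat.mul_le_mul_left _ hlow

end Pool.Agent.R65.OM
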