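import Mathlib
import Pool.Agent.R65.OM.Greedy
import Pool.Agent.R65.OM.Arrow

set_option autoImplicit false

namespace Pool.Agent.R65.OM

open Finset Filter Topology

theorem nonempty_matchings {m k : ℕ} (hk : 2 ≤ k) (hm : k ≤ m) :
    (matchingsWithChi (2 * m) k).Nonempty := by
  classical
  set s := 2 * (k - 2) with hs
  set h := m - (k - 2) with hh
  have hsh : s + 2 * h = 2 * m := by omega
  have hh1 : 1 ≤ h := by omega
  let μ : Fin (2 * m) → Fin (2 * m) := fun v =>
    ⟨if (v : ℕ) < s then (v : ℕ) + 1 - 2 * ((v : ℕ) % 2) else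
      if (v : ℕ) < s + h then (v : ℕ) + h else (v : ℕ) - h, by
        have := v.2
        split_ifs <;> omega⟩
  let f : Fin (2 * m) → Fin k := fun v =>
    ⟨if (v : ℕ) < s then ((v : ℕ) + 1) / 2 else if (v : ℕ) < s + h then k - 2 else k - 1, by
        have := v.2
        split_ifs <;> omega⟩
  have hμv : ∀ v : Fin (2 * m), (μ v : ℕ) = if (v : ℕ) < s then (v : ℕ) + 1 - 2 * ((v : ℕ) % 2) else
      if (v : ℕ) < s + h then (v : ℕ) + h else (v : ℕ) - h := fun v => rfl
  have hfv : ∀ v : Fin (2 * m), (f v : ℕ) =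
      if (v : ℕ) < s then ((v : ℕ) + 1) / 2 else if (v : ℕ) < s + h then k - 2 else k - 1 :=
    fun v => rfl
  have hμμ : ∀ v, μ (μ v) = v := by
    intro v
    apply Fin.ext
    have := v.2
    rw [hμv (μ v), hμv v]
    split_ifs <;> omega
  have hG : Greedy f (f ∘ μ) := by
    refine ⟨?_, ?_, ?_, ?_⟩
    · intro u v huv
      have huv' : (u : ℕ) ≤ v := huv
      change (f u : ℕ) ≤ f v
      rw [hfv, hfv]
      split_ifs <;> omega
    · intro v hv
      have h1 : (f (μ v) : ℕ) = f v := by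
        have := congrArg Fin.val hv
        exact this
      have := v.2
      rw [hfv (μ v), hfv v, hμv v] at h1
      split_ifs at h1 <;> omega
    · intro v hfirst h0
      change (f (μ v) : ℕ) + 1 = f v
      have hv2 := v.2
      by_cases hv0 : (v : ℕ) = 0
      · rw [hfv (μ v), hfv v, hμv v]
        rw [hfv v] at h0
        split_ifs at h0 ⊢ <;> omega
      · have h1 : (f ⟨(v : ℕ) - 1, by omega⟩ : ℕ) < f v := hfirst ⟨(v : ℕ) - 1, by omega⟩ (by
          change (v : ℕ) - 1 < v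
          omega)
        rw [hfv, hfv] at h1
        rw [hfv (μ v), hfv v, hμv v]
        rw [hfv v] at h0
        simp only at h1
        split_ifs at h0 h1 ⊢ <;> omega
    · refine ⟨⟨s + h, by omega⟩, ?_⟩
      rw [hfv]
      simp only
      split_ifs <;> omega
  have hInv : μ ∈ Inv f (f ∘ μ) := mem_Inv.2 ⟨hμμ, fun v => rfl⟩
  exact ⟨graphOf μ, graphOf_mem hG hInv⟩

theorem bound_real {n k r : ℕ} (hr : 1 ≤ r) (hr1 : (r : ℝ) ≤ (n : ℝ) ^ ((1 : ℝ) / 20))
    (hr2 : (n : ℝ) ^ ((1 : ℝ) / 20) < r + 1) (hn : 2 ≤ n) :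
    ((k * ((n / r + 1) * (5 * n + 4 * r + 2)) : ℕ) : ℝ) ≤
      40 * k * (n : ℝ) ^ ((2 : ℝ) - 1 / 20) := by
  have hn0 : (0 : ℝ) < n := by positivity
  have hn1 : (2 : ℝ) ≤ n := by exact_mod_cast hn
  have hr0 : (1 : ℝ) ≤ r := by exact_mod_cast hr
  have hr0' : (0 : ℝ) < r := by linarith
  have hrn : (r : ℝ) ≤ n := by
    calc (r : ℝ) ≤ (n : ℝ) ^ ((1 : ℝ) / 20) := hr1
      _ ≤ (n : ℝ) ^ (1 : ℝ) := Real.rpow_le_rpow_of_exponent_le (by linarith) (by norm_num)
      _ = n := Real.rpow_one _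
  have h1 : ((n / r : ℕ) : ℝ) ≤ n / r := Nat.cast_div_le
  have h2 : (1 : ℝ) ≤ n / r := by rw [le_div_iff₀ hr0']; linarith
  have h3 : ((n / r : ℕ) : ℝ) + 1 ≤ 2 * (n / r) := by linarith
  have h4 : (5 * n + 4 * r + 2 : ℝ) ≤ 10 * n := by linarith
  have h5 : (n : ℝ) ^ ((2 : ℝ) - 1 / 20) * (n : ℝ) ^ ((1 : ℝ) / 20) = n * n := by
    rw [← Real.rpow_add hn0]
    norm_num
    ring
  have h6 : (n : ℝ) * n / r ≤ 2 * (n : ℝ) ^ ((2 : ℝ) - 1 / 20) := by
    rw [div_le_iff₀ hr0', ← h5]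
    have h7 : (n : ℝ) ^ ((1 : ℝ) / 20) ≤ 2 * r := by linarith
    calc (n : ℝ) ^ ((2 : ℝ) - 1 / 20) * (n : ℝ) ^ ((1 : ℝ) / 20)
        ≤ (n : ℝ) ^ ((2 : ℝ) - 1 / 20) * (2 * r) :=
          mul_le_mul_of_nonneg_left h7 (by positivity)
      _ = _ := by ring
  push_cast
  calc (k : ℝ) * ((((n / r : ℕ) : ℝ) + 1) * (5 * n + 4 * r + 2))
      ≤ k * ((2 * (n / r)) * (10 * n)) := by
        apply mul_le_mul_of_nonneg_left _ (by positivity)
        exact mul_le_mul h3 h4 (by positivity) (by positivity)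
    _ = 20 * k * (n * n / r) := by ring
    _ ≤ 20 * k * (2 * (n : ℝ) ^ ((2 : ℝ) - 1 / 20)) :=
        mul_le_mul_of_nonneg_left h6 (by positivity)
    _ = _ := by ring

theorem main (k : ℕ) (hk : 2 ≤ k) :
    Tendsto (fun m : ℕ =>
      (({M : SimpleGraph (Fin (2 * m)) | M ∈ matchingsWithChi (2 * m) k ∧
          ∃ N : ℕ, (N : ℝ) ≤ 40 * k * ((2 * m : ℕ) : ℝ) ^ ((2 : ℝ) - 1 / 20) ∧
            ArrowsTriangle M N}.ncard : ℝ) / ((matchingsWithChi (2 * m) k).ncard : ℝ)))
      atTop (𝓝 1) := by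
  classical
  set r : ℕ → ℕ := fun m => ⌊((2 * m : ℕ) : ℝ) ^ ((1 : ℝ) / 20)⌋₊ with hr
  have hrtend : Tendsto r atTop atTop := by
    apply tendsto_nat_floor_atTop.comp
    apply (tendsto_rpow_atTop (by norm_num : (0 : ℝ) < 1 / 20)).comp
    apply tendsto_natCast_atTop_atTop.comp
    exact tendsto_atTop_mono (fun m => (by omega : m ≤ 2 * m)) tendsto_id
  have hlow : Tendsto (fun m => (1 : ℝ) - 16 * (k : ℝ) ^ 2 / ((r m : ℝ) ^ 3)) atTop (𝓝 1) := by
    have h1 : Tendsto (fun m => ((r m : ℝ) ^ 3)) atTop atTop :=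
      (tendsto_pow_atTop (by norm_num)).comp (tendsto_natCast_atTop_atTop.comp hrtend)
    have h2 := (tendsto_const_nhds (x := 16 * (k : ℝ) ^ 2)).div_atTop h1
    have h3 := (tendsto_const_nhds (x := (1 : ℝ))).sub h2
    simpa using h3
  refine tendsto_of_tendsto_of_tendsto_of_le_of_le' hlow tendsto_const_nhds ?_ ?_
  · filter_upwards [hrtend.eventually_ge_atTop 244, eventually_ge_atTop k] with m hrm hmk
    set n := 2 * m with hn
    have hn0 : 2 ≤ n := by omega
    have hrm1 : ((r m : ℕ) : ℝ) ≤ (n : ℝ) ^ ((1 : ℝ) / 20) := Nat.floor_le (by positivity)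
    have hrm2 : (n : ℝ) ^ ((1 : ℝ) / 20) < r m + 1 := Nat.lt_floor_add_one _
    have hrn : r m ^ 20 ≤ n := by
      have : ((r m : ℕ) : ℝ) ^ 20 ≤ ((n : ℝ) ^ ((1 : ℝ) / 20)) ^ 20 :=
        pow_le_pow_left₀ (by positivity) hrm1 20
      rw [← Real.rpow_natCast, ← Real.rpow_natCast, ← Real.rpow_mul (by positivity)] at this
      norm_num at this
      exact_mod_cast this
    set S : Set (SimpleGraph (Fin n)) := {M : SimpleGraph (Fin n) | M ∈ matchingsWithChi n k ∧
          ∃ N : ℕ, (N : ℝ) ≤ 40 * k * (n : ℝ) ^ ((2 : ℝ) - 1 / 20) ∧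
            ArrowsTriangle M N} with hS
    set A := univ.filter (fun M : SimpleGraph (Fin n) => M ∈ matchingsWithChi n k) with hA
    have hAcard : (matchingsWithChi n k).ncard = A.card := by
      rw [← Set.ncard_coe_finset]
      congr 1
      ext M
      simp [hA]
    have hScard : (A.filter (fun M => GoodM k (r m) M)).card ≤ S.ncard := by
      rw [← Set.ncard_coe_finset]
      apply Set.ncard_le_ncard _ (Set.toFinite _)
      intro M hM
      simp only [Finset.coe_filter, Set.mem_ofPred_eq, hA, Finset.mem_filter, Finset.mem_univ,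
        true_and] at hM
      obtain ⟨hM1, f, μ, hf, hμ, hp, hadj, hclose⟩ := hM
      refine ⟨hM1, _, bound_real (k := k) (r := r m) (by omega) hrm1 hrm2 hn0, ?_⟩
      exact arrow hrm hrn M (fun v => (f v : ℕ)) (fun a b hab => hf hab) (fun v => (f v).2) μ hμ
        (fun v h => hp v (Fin.ext h)) hadj hclose
    have hbad := bad_le (n := n) (k := k) (r := r m) (by omega) (by omega) (by omega)
    have hbadeq : (univ.filter (fun M : SimpleGraph (Fin n) =>
        M ∈ matchingsWithChi n k ∧ ¬ GoodM k (r m) M)) = A.filter (fun M => ¬ GoodM k (r m) M) := by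
      rw [hA, Finset.filter_filter]
    have hsplit : (A.filter (fun M => GoodM k (r m) M)).card +
        (A.filter (fun M => ¬ GoodM k (r m) M)).card = A.card :=
      Finset.card_filter_add_card_filter_not _
    have hApos : 0 < A.card := by
      obtain ⟨M, hM⟩ := nonempty_matchings (m := m) (k := k) hk hmk
      apply Finset.card_pos.2
      refine ⟨M, ?_⟩
      simp only [hA, Finset.mem_filter, Finset.mem_univ, true_and]
      exact hM
    have hApos' : (0 : ℝ) < A.card := by exact_mod_cast hApos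
    have hrpos : (0 : ℝ) < ((r m : ℕ) : ℝ) ^ 3 := by
      have : 0 < r m := by omega
      positivity
    rw [hAcard, le_div_iff₀ hApos']
    have hb : ((A.filter (fun M => ¬ GoodM k (r m) M)).card : ℝ) ≤
        16 * (k : ℝ) ^ 2 / ((r m : ℝ) ^ 3) * A.card := by
      rw [div_mul_eq_mul_div, le_div_iff₀ hrpos, mul_comm]
      have h1 : r m ^ 3 * (A.filter (fun M => ¬ GoodM k (r m) M)).card ≤ 16 * k ^ 2 * A.card := by
        rw [← hbadeq]
        convert hbad
      exact_mod_cast h1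
    have h1 : ((A.filter (fun M => GoodM k (r m) M)).card : ℝ) +
        ((A.filter (fun M => ¬ GoodM k (r m) M)).card : ℝ) = A.card := by exact_mod_cast hsplit
    have h2 : ((A.filter (fun M => GoodM k (r m) M)).card : ℝ) ≤ S.ncard := by
      exact_mod_cast hScard
    rw [sub_mul, one_mul]
    linarith
  · filter_upwards with m
    apply div_le_one_of_le₀ _ (by positivity)
    have : ({M : SimpleGraph (Fin (2 * m)) | M ∈ matchingsWithChi (2 * m) k ∧
          ∃ N : ℕ, (N : ℝ) ≤ 40 * k * ((2 * m : ℕ) : ℝ) ^ ((2 : ℝ) - 1 / 20) ∧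
            ArrowsTriangle M N}).ncard ≤ (matchingsWithChi (2 * m) k).ncard :=
      Set.ncard_le_ncard (fun M hM => hM.1) (Set.toFinite _)
    exact_mod_cast this

end Pool.Agent.R65.OM
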